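import Mathlib

set_option autoImplicit false

/-!
A finite form of Ramsey's theorem and facts on the independence number of induced subgraphs.
-/

namespace Pool.Agent.X212.Stab

open Finset

lemma ramsey (s t : ℕ) : ∃ R : ℕ, ∀ (V : Type) (G : SimpleGraph V) (U : Finset V), R ≤ U.card →
    (∃ A ⊆ U, A.card = s ∧ G.IsClique (A : Set V)) ∨
    (∃ B ⊆ U, B.card = t ∧ G.IsIndepSet (B : Set V)) := by
  classical
  induction s generalizing t with
  | zero => exact ⟨0, fun V G U _ => Or.inl ⟨∅, empty_subset _, rfl, by simp⟩⟩
  | succ s ihs =>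
    induction t with
    | zero => exact ⟨0, fun V G U _ => Or.inr ⟨∅, empty_subset _, rfl, by simp [SimpleGraph.IsIndepSet]⟩⟩
    | succ t iht =>
      obtain ⟨R1, h1⟩ := ihs (t + 1)
      obtain ⟨R2, h2⟩ := iht
      refine ⟨R1 + R2 + 1, fun V G U hU => ?_⟩
      obtain ⟨v, hv⟩ : U.Nonempty := card_pos.1 (by omega)
      have hPQ : ((U.erase v).filter (fun w => G.Adj v w)).card +
          ((U.erase v).filter (fun w => ¬ G.Adj v w)).card = (U.erase v).card :=
        card_filter_add_card_filter_not _
      have hce := card_erase_add_one hv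
      have hsP : (U.erase v).filter (fun w => G.Adj v w) ⊆ U :=
        (filter_subset _ _).trans (erase_subset _ _)
      have hsQ : (U.erase v).filter (fun w => ¬ G.Adj v w) ⊆ U :=
        (filter_subset _ _).trans (erase_subset _ _)
      by_cases hP : R1 ≤ ((U.erase v).filter (fun w => G.Adj v w)).card
      · rcases h1 V G _ hP with ⟨A, hA, hc, hcl⟩ | ⟨B, hB, hc, hi⟩
        · left
          have hvA : v ∉ A := fun h => (mem_erase.1 (mem_filter.1 (hA h)).1).1 rfl
          refine ⟨insert v A, insert_subset hv (hA.trans hsP), ?_, ?_⟩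
          · rw [card_insert_of_notMem hvA, hc]
          · rw [coe_insert]
            exact hcl.insert fun w hw _ => (mem_filter.1 (hA hw)).2
        · right
          exact ⟨B, hB.trans hsP, hc, hi⟩
      · rcases h2 V G _ (show R2 ≤ ((U.erase v).filter (fun w => ¬ G.Adj v w)).card by omega) with
          ⟨A, hA, hc, hcl⟩ | ⟨B, hB, hc, hi⟩
        · left
          exact ⟨A, hA.trans hsQ, hc, hcl⟩
        · right
          have hvB : v ∉ B := fun h => (mem_erase.1 (mem_filter.1 (hB h)).1).1 rfl
          refine ⟨insert v B, insert_subset hv (hB.trans hsQ), ?_, ?_⟩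
          · rw [card_insert_of_notMem hvB, hc]
          · intro a ha b hb hab
            rw [coe_insert] at ha hb
            rcases ha with rfl | ha
            · rcases hb with rfl | hb
              · exact absurd rfl hab
              · exact (mem_filter.1 (hB hb)).2
            · rcases hb with rfl | hb
              · exact fun h => (mem_filter.1 (hB ha)).2 h.symm
              · exact hi ha hb hab

/-- `G` is `(k, l)`-stable: deleting at most `k` vertices lowers the independence number by at
most `l`. -/
def Stable {V : Type} (G : SimpleGraph V) (k l : ℕ) : Prop :=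
  ∀ X : Finset V, X.card ≤ k → G.indepNum ≤ (G.induce {v | v ∉ X}).indepNum + l

/-- `G` is tight `(k, 0)`-stable. -/
def TightStable (k : ℕ) {V : Type} [Fintype V] (G : SimpleGraph V) : Prop :=
  Stable G k 0 ∧ G.indepNum = (Fintype.card V + 1 - k) / 2

lemma le_induce_iff {V : Type} [Fintype V] (G : SimpleGraph V) (X : Finset V) (m : ℕ) :
    m ≤ (G.induce {v | v ∉ X}).indepNum ↔
      ∃ I : Finset V, G.IsIndepSet (I : Set V) ∧ (∀ v ∈ I, v ∉ X) ∧ I.card = m := by
  classical
  constructor
  · intro h
    obtain ⟨s, hs⟩ := (G.induce {v | v ∉ X}).exists_isNIndepSet_indepNum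
    obtain ⟨t, ht, htc⟩ := exists_subset_card_eq (h.trans hs.card_eq.ge)
    refine ⟨t.map ⟨Subtype.val, Subtype.val_injective⟩, ?_, ?_, ?_⟩
    · intro a ha b hb hab
      rw [coe_map] at ha hb
      obtain ⟨a', ha', rfl⟩ := ha
      obtain ⟨b', hb', rfl⟩ := hb
      have := hs.isIndepSet (ht ha') (ht hb') (fun h => hab (by rw [h]))
      exact this
    · intro v hv
      obtain ⟨a, _, rfl⟩ := mem_map.1 hv
      exact a.2
    · rw [card_map, htc]
  · rintro ⟨I, hI, hX, rfl⟩
    have h1 : (G.induce {v | v ∉ X}).IsIndepSet
        ((I.subtype (fun v => v ∈ ({v | v ∉ X} : Set V)) : Finset _) : Set _) := by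
      intro a ha b hb hab
      have ha' := mem_subtype.1 ha
      have hb' := mem_subtype.1 hb
      have := hI ha' hb' (fun h => hab (Subtype.ext h))
      exact this
    have h2 := h1.card_le_indepNum
    rw [card_subtype, filter_true_of_mem (p := fun v => v ∈ ({v | v ∉ X} : Set V))
      (fun v hv => hX v hv)] at h2
    exact h2

/-- the working form of stability -/
lemma stable_iff {V : Type} [Fintype V] (G : SimpleGraph V) (k : ℕ) :
    Stable G k 0 ↔ ∀ X : Finset V, X.card ≤ k →
      ∃ I : Finset V, G.IsIndepSet (I : Set V) ∧ (∀ v ∈ I, v ∉ X) ∧ I.card = G.indepNum := by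
  unfold Stable
  refine forall_congr' fun X => imp_congr_right fun _ => ?_
  rw [Nat.add_zero]
  exact le_induce_iff G X _

lemma indepNum_pos {V : Type} [Fintype V] [Nonempty V] (G : SimpleGraph V) : 1 ≤ G.indepNum := by
  classical
  obtain ⟨v⟩ := ‹Nonempty V›
  have h : G.IsIndepSet (({v} : Finset V) : Set V) := by simp [SimpleGraph.IsIndepSet]
  have := h.card_le_indepNum
  simpa using this

/-- a stable graph with a vertex has more than `k` vertices -/
lemma lt_card {V : Type} [Fintype V] [Nonempty V] {G : SimpleGraph V} {k : ℕ}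
    (h : Stable G k 0) : k < Fintype.card V := by
  by_contra hcon
  obtain ⟨I, _, hX, hc⟩ := (stable_iff G k).1 h univ (by rw [card_univ]; omega)
  have h1 := indepNum_pos G
  obtain ⟨v, hv⟩ : I.Nonempty := card_pos.1 (by omega)
  exact hX v hv (mem_univ v)

/-- the order of a tight stable graph -/
lemma tight_card {V : Type} [Fintype V] [Nonempty V] {G : SimpleGraph V} {k : ℕ}
    (h : TightStable k G) : Fintype.card V + 1 = 2 * G.indepNum + k ∨
      Fintype.card V = 2 * G.indepNum + k := by
  have h1 := lt_card h.1
  have h2 := h.2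
  omega

/-- deleting vertices of a tight stable graph -/
lemma tight_induce {V : Type} [Fintype V] [Nonempty V] {G : SimpleGraph V} {k j : ℕ}
    (h : TightStable k G) (hjk : j ≤ k) :
    ∃ (W : Type) (_ : Fintype W) (_ : Nonempty W) (H : SimpleGraph W), TightStable j H ∧
      Fintype.card W + (k - j) = Fintype.card V := by
  classical
  have h1 := lt_card h.1
  obtain ⟨X, _, hX⟩ := exists_subset_card_eq (s := (univ : Finset V)) (n := k - j)
    (by rw [card_univ]; omega)
  have hcard : Fintype.card {v | v ∉ X} + (k - j) = Fintype.card V := by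
    have h2 : Fintype.card {v | v ∉ X} = (Xᶜ).card := by
      rw [Fintype.card_of_subtype (s := Xᶜ)]
      intro v
      simp
    rw [h2, ← hX, card_compl_add_card]
  have hne : Nonempty {v | v ∉ X} := by
    rw [← Fintype.card_pos_iff]
    omega
  have hind : (G.induce {v | v ∉ X}).indepNum = G.indepNum := by
    apply le_antisymm
    · obtain ⟨I, hI, _, hc⟩ := (le_induce_iff G X _).1 le_rfl
      rw [← hc]
      exact hI.card_le_indepNum
    · exact h.1 X (by omega)
  refine ⟨{v | v ∉ X}, inferInstance, hne, G.induce {v | v ∉ X}, ⟨?_, ?_⟩, hcard⟩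
  · rw [stable_iff]
    intro Y hY
    have hXY : (X ∪ Y.map ⟨Subtype.val, Subtype.val_injective⟩).card ≤ k := by
      have h3 := card_union_le X (Y.map ⟨Subtype.val, Subtype.val_injective⟩)
      rw [card_map] at h3
      omega
    obtain ⟨I, hI, hX', hc⟩ := (stable_iff G k).1 h.1 _ hXY
    refine ⟨I.subtype (fun v => v ∈ ({v | v ∉ X} : Set V)), ?_, ?_, ?_⟩
    · intro a ha b hb hab
      have ha' := mem_subtype.1 ha
      have hb' := mem_subtype.1 hb
      have := hI ha' hb' (fun h => hab (Subtype.ext h))
      exact this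
    · intro v hv hvY
      exact hX' _ (mem_subtype.1 hv) (mem_union_right _ (mem_map.2 ⟨v, hvY, rfl⟩))
    · rw [card_subtype, filter_true_of_mem (p := fun v => v ∈ ({v | v ∉ X} : Set V))
        (fun v hv h => hX' v hv (mem_union_left _ h)), hc, hind]
  · rw [hind, h.2]
    congr 1
    omega

/-- a tight stable graph with independence number at least two has no large clique -/
lemma clique_le {V : Type} [Fintype V] [Nonempty V] {G : SimpleGraph V} {k : ℕ}
    (h : TightStable k G) (h2 : 2 ≤ G.indepNum) {A : Finset V} (hA : G.IsClique (A : Set V)) :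
    A.card ≤ G.indepNum + 1 := by
  classical
  by_contra hcon
  obtain ⟨A', hA', hc'⟩ := exists_subset_card_eq (s := A) (n := G.indepNum + 2) (by omega)
  have hcl : G.IsClique (A' : Set V) := hA.subset (by exact_mod_cast hA')
  have ht := tight_card h
  have h1 := lt_card h.1
  have hcc := card_compl_add_card A'
  obtain ⟨X, hX, hXc⟩ := exists_subset_card_eq (s := A'ᶜ) (n := min k (A'ᶜ).card)
    (min_le_right _ _)
  obtain ⟨I, hI, hIX, hIc⟩ := (stable_iff G k).1 h.1 X (hXc ▸ min_le_left _ _)
  have h3 : (I ∩ A').card ≤ 1 := by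
    rw [card_le_one]
    intro a ha b hb
    by_contra hab
    rw [mem_inter] at ha hb
    exact hI ha.1 hb.1 hab (hcl ha.2 hb.2 hab)
  have h4 : I ⊆ (I ∩ A') ∪ (A'ᶜ \ X) := by
    intro v hv
    by_cases hvA : v ∈ A'
    · exact mem_union_left _ (mem_inter.2 ⟨hv, hvA⟩)
    · exact mem_union_right _ (mem_sdiff.2 ⟨mem_compl.2 hvA, hIX v hv⟩)
  have h5 := (card_le_card h4).trans (card_union_le _ _)
  have h6 := card_sdiff_add_card_eq_card hX
  rcases min_choice k (A'ᶜ).card with h7 | h7 <;> rw [h7] at hXc <;> omega

/-- the graphs with independence number one -/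
lemma eq_top {V : Type} [Fintype V] {G : SimpleGraph V} (h : G.indepNum ≤ 1) : G = ⊤ := by
  classical
  ext a b
  rw [SimpleGraph.top_adj]
  constructor
  · exact fun h => h.ne
  · intro hab
    by_contra hcon
    have hI : G.IsIndepSet (({a, b} : Finset V) : Set V) := by
      intro x hx y hy hxy
      rw [coe_insert, coe_singleton] at hx hy
      rcases hx with rfl | hx
      · rcases hy with rfl | hy
        · exact absurd rfl hxy
        · rw [Set.mem_singleton_iff] at hy
          subst hy
          exact hcon
      · rw [Set.mem_singleton_iff] at hx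
        subst hx
        rcases hy with rfl | hy
        · exact fun h => hcon h.symm
        · exact absurd hy.symm hxy
    have h3 := hI.card_le_indepNum
    rw [card_pair hab] at h3
    omega

end Pool.Agent.X212.Stab
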