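import Pool.Agent.X212.Stab.Basic

set_option autoImplicit false
set_option linter.unusedSectionVars false

/-!
A matching from a maximum independent set, and a bound for the vertex cover number of the
complement of a maximum independent set.
-/

namespace Pool.Agent.X212.Stab

open Finset

variable {V : Type} [Fintype V] [DecidableEq V]

open Classical in
/-- neighbourhood -/
noncomputable def Nb (H : SimpleGraph V) (A : Finset V) : Finset V :=
  univ.filter (fun v => ∃ a ∈ A, H.Adj a v)

lemma mem_Nb {H : SimpleGraph V} {A : Finset V} {v : V} : v ∈ Nb H A ↔ ∃ a ∈ A, H.Adj a v := by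
  classical
  simp [Nb]

lemma hall_cond {H : SimpleGraph V} {α : ℕ}
    (hα : ∀ I : Finset V, H.IsIndepSet (I : Set V) → I.card ≤ α)
    {S : Finset V} (hS : H.IsIndepSet (S : Set V))
    (hst : ∀ v, ∃ I : Finset V, H.IsIndepSet (I : Set V) ∧ v ∉ I ∧ I.card = α) :
    ∀ A : Finset V, A ⊆ S → A.card ≤ (Nb H A).card := by
  classical
  intro A
  induction A using Finset.strongInduction with
  | H A ih =>
    intro hAS
    rcases A.eq_empty_or_nonempty with rfl | ⟨a, ha⟩
    · simp
    obtain ⟨I, hI, haI, hIc⟩ := hst a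
    have hAi : H.IsIndepSet (A : Set V) := fun x hx y hy hxy => hS (hAS hx) (hAS hy) hxy
    -- exchange
    have hind : H.IsIndepSet (((I \ Nb H A) ∪ A : Finset V) : Set V) := by
      intro x hx y hy hxy hadj
      rcases mem_union.1 (mem_coe.1 hx) with hx | hx <;> rcases mem_union.1 (mem_coe.1 hy) with hy | hy
      · exact hI (mem_sdiff.1 hx).1 (mem_sdiff.1 hy).1 hxy hadj
      · exact (mem_sdiff.1 hx).2 (mem_Nb.2 ⟨y, hy, hadj.symm⟩)
      · exact (mem_sdiff.1 hy).2 (mem_Nb.2 ⟨x, hx, hadj⟩)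
      · exact hAi hx hy hxy hadj
    have h1 := hα _ hind
    have hsplit : (I \ Nb H A) ∪ A = (I \ Nb H A) ∪ (A \ I) := by
      ext x
      simp only [mem_union, mem_sdiff]
      constructor
      · rintro (h | h)
        · exact Or.inl h
        · by_cases hxI : x ∈ I
          · left
            refine ⟨hxI, fun hx => ?_⟩
            obtain ⟨y, hy, hadj⟩ := mem_Nb.1 hx
            exact hAi hy h hadj.ne hadj
          · exact Or.inr ⟨h, hxI⟩
      · rintro (h | h)
        · exact Or.inl h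
        · exact Or.inr h.1
    rw [hsplit, card_union_of_disjoint (by
      rw [disjoint_left]
      intro x hx hx'
      exact (mem_sdiff.1 hx').2 (mem_sdiff.1 hx).1)] at h1
    have h2 := card_sdiff_add_card_inter I (Nb H A)
    have h3 : (A \ I).card ≤ (I ∩ Nb H A).card := by omega
    set B := I ∩ Nb H A with hB
    set A2 := A.filter (fun x => ∀ b ∈ B, ¬ H.Adj x b) with hA2
    have hA2s : A2 ⊆ A := filter_subset _ _
    by_cases hne : A2 = A
    · exfalso
      have hB0 : B = ∅ := by
        rw [eq_empty_iff_forall_notMem]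
        intro b hb
        obtain ⟨x, hx, hadj⟩ := mem_Nb.1 (mem_inter.1 hb).2
        rw [← hne] at hx
        exact (mem_filter.1 hx).2 b hb hadj
      rw [hB0, card_empty, Nat.le_zero, card_eq_zero, sdiff_eq_empty_iff_subset] at h3
      exact haI (h3 ha)
    · have h4 := ih A2 (Finset.ssubset_iff_subset_ne.2 ⟨hA2s, hne⟩) (hA2s.trans hAS)
      have h5 : Nb H A2 ⊆ Nb H A \ B := by
        intro v hv
        obtain ⟨x, hx, hadj⟩ := mem_Nb.1 hv
        exact mem_sdiff.2 ⟨mem_Nb.2 ⟨x, hA2s hx, hadj⟩, fun hvB => (mem_filter.1 hx).2 v hvB hadj⟩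
      have h6 := card_le_card h5
      have h7 := card_sdiff_add_card_eq_card (show B ⊆ Nb H A from inter_subset_right)
      have h8 : A \ A2 ⊆ A \ I := by
        intro x hx
        obtain ⟨hxA, hxn⟩ := mem_sdiff.1 hx
        refine mem_sdiff.2 ⟨hxA, fun hxI => hxn (mem_filter.2 ⟨hxA, fun b hb hadj => ?_⟩)⟩
        exact hI hxI (mem_inter.1 hb).1 hadj.ne hadj
      have h9 := card_le_card h8
      have h10 := card_sdiff_add_card_eq_card hA2s
      omega

lemma matchS {H : SimpleGraph V} {α : ℕ}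
    (hα : ∀ I : Finset V, H.IsIndepSet (I : Set V) → I.card ≤ α)
    {S : Finset V} (hS : H.IsIndepSet (S : Set V))
    (hst : ∀ v, ∃ I : Finset V, H.IsIndepSet (I : Set V) ∧ v ∉ I ∧ I.card = α) :
    ∃ m : V → V, Set.InjOn m (S : Set V) ∧ (∀ s ∈ S, m s ∉ S) ∧ ∀ s ∈ S, H.Adj s (m s) := by
  classical
  obtain ⟨f, hf, hf'⟩ := (Finset.all_card_le_biUnion_card_iff_exists_injective
    (fun v : {v // v ∈ S} => Nb H {v.1})).1 (by
      intro A
      have h1 := hall_cond hα hS hst (A.map ⟨Subtype.val, Subtype.val_injective⟩) (by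
        intro x hx
        obtain ⟨v, _, rfl⟩ := mem_map.1 hx
        exact v.2)
      rw [card_map] at h1
      refine h1.trans (card_le_card ?_)
      intro x hx
      obtain ⟨y, hy, hadj⟩ := mem_Nb.1 hx
      obtain ⟨v, hv, rfl⟩ := mem_map.1 hy
      exact mem_biUnion.2 ⟨v, hv, mem_Nb.2 ⟨v.1, mem_singleton_self _, hadj⟩⟩)
  have hadj : ∀ s (h : s ∈ S), H.Adj s (f ⟨s, h⟩) := by
    intro s h
    obtain ⟨a, ha, h'⟩ := mem_Nb.1 (hf' ⟨s, h⟩)
    rw [mem_singleton] at ha
    rw [ha] at h'
    exact h'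
  refine ⟨fun v => if h : v ∈ S then f ⟨v, h⟩ else v, ?_, ?_, ?_⟩
  · intro a ha b hb hab
    have ha' : a ∈ S := ha
    have hb' : b ∈ S := hb
    simp only [dif_pos ha', dif_pos hb'] at hab
    exact congrArg Subtype.val (hf hab)
  · intro s hs
    simp only [dif_pos hs]
    exact fun h => hS hs h (hadj s hs).ne (hadj s hs)
  · intro s hs
    simp only [dif_pos hs]
    exact hadj s hs

/-- disjoint edges or a small vertex cover outside `S` -/
lemma edges_or_cover (H : SimpleGraph V) (S : Finset V) (N : ℕ) :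
    (∃ Z : Finset V, Z.card ≤ 2 * N ∧ ∀ u v, H.Adj u v → u ∉ S → v ∉ S → u ∈ Z ∨ v ∈ Z) ∨
    (∃ a b : ℕ → V, (∀ i < N, H.Adj (a i) (b i) ∧ a i ∉ S ∧ b i ∉ S) ∧
      ∀ i < N, ∀ j < N, i ≠ j → a j ≠ a i ∧ a j ≠ b i ∧ b j ≠ a i ∧ b j ≠ b i) := by
  classical
  induction N with
  | zero =>
    by_cases hV : Nonempty V
    · obtain ⟨v⟩ := hV
      exact Or.inr ⟨fun _ => v, fun _ => v, fun i hi => absurd hi (Nat.not_lt_zero i),
        fun i hi => absurd hi (Nat.not_lt_zero i)⟩
    · exact Or.inl ⟨∅, by simp, fun u => absurd ⟨u⟩ hV⟩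
  | succ N ih =>
    rcases ih with ⟨Z, hZ, hc⟩ | ⟨a, b, h1, h2⟩
    · exact Or.inl ⟨Z, by omega, hc⟩
    · by_cases hcov : ∀ u v, H.Adj u v → u ∉ S → v ∉ S →
          u ∈ (range N).image a ∪ (range N).image b ∨ v ∈ (range N).image a ∪ (range N).image b
      · left
        refine ⟨(range N).image a ∪ (range N).image b, ?_, hcov⟩
        have e1 := card_union_le ((range N).image a) ((range N).image b)
        have e2 : ((range N).image a).card ≤ N := card_image_le.trans (by simp)
        have e3 : ((range N).image b).card ≤ N := card_image_le.trans (by simp)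
        omega
      · right
        push Not at hcov
        obtain ⟨u, v, hadj, hu, hv, huZ, hvZ⟩ := hcov
        have hna : ∀ i < N, a i ≠ u ∧ a i ≠ v ∧ b i ≠ u ∧ b i ≠ v := by
          intro i hi
          refine ⟨?_, ?_, ?_, ?_⟩ <;> rintro rfl
          · exact huZ (mem_union_left _ (mem_image_of_mem _ (mem_range.2 hi)))
          · exact hvZ (mem_union_left _ (mem_image_of_mem _ (mem_range.2 hi)))
          · exact huZ (mem_union_right _ (mem_image_of_mem _ (mem_range.2 hi)))
          · exact hvZ (mem_union_right _ (mem_image_of_mem _ (mem_range.2 hi)))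
        refine ⟨fun i => if i < N then a i else u, fun i => if i < N then b i else v, ?_, ?_⟩
        · intro i hi
          by_cases h : i < N
          · simp only [if_pos h]; exact h1 i h
          · simp only [if_neg h]; exact ⟨hadj, hu, hv⟩
        · intro i hi j hj hij
          by_cases hi' : i < N <;> by_cases hj' : j < N
          · simp only [if_pos hi', if_pos hj']; exact h2 i hi' j hj' hij
          · simp only [if_pos hi', if_neg hj']
            obtain ⟨e1, e2, e3, e4⟩ := hna i hi'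
            exact ⟨e1.symm, e3.symm, e2.symm, e4.symm⟩
          · simp only [if_neg hi', if_pos hj']
            obtain ⟨e1, e2, e3, e4⟩ := hna j hj'
            exact ⟨e1, e2, e3, e4⟩
          · exact absurd (show i = j by omega) hij

open Classical in
/-- neighbours in `S` -/
noncomputable def NS (H : SimpleGraph V) (S J : Finset V) : Finset V :=
  S.filter (fun s => ∃ j ∈ J, H.Adj s j)

lemma mem_NS {H : SimpleGraph V} {S J : Finset V} {v : V} :
    v ∈ NS H S J ↔ v ∈ S ∧ ∃ j ∈ J, H.Adj v j := by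
  classical
  simp [NS]

lemma indep_le {H : SimpleGraph V} {α : ℕ}
    (hα : ∀ I : Finset V, H.IsIndepSet (I : Set V) → I.card ≤ α)
    {S : Finset V} (hS : H.IsIndepSet (S : Set V)) (hSc : S.card = α) {J : Finset V}
    (hJ : H.IsIndepSet (J : Set V)) (hJS : ∀ j ∈ J, j ∉ S) : J.card ≤ (NS H S J).card := by
  classical
  have hind : H.IsIndepSet (((S \ NS H S J) ∪ J : Finset V) : Set V) := by
    intro x hx y hy hxy hadj
    rcases mem_union.1 (mem_coe.1 hx) with hx | hx <;> rcases mem_union.1 (mem_coe.1 hy) with hy | hy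
    · exact hS (mem_sdiff.1 hx).1 (mem_sdiff.1 hy).1 hxy hadj
    · exact (mem_sdiff.1 hx).2 (mem_NS.2 ⟨(mem_sdiff.1 hx).1, y, hy, hadj⟩)
    · exact (mem_sdiff.1 hy).2 (mem_NS.2 ⟨(mem_sdiff.1 hy).1, x, hx, hadj.symm⟩)
    · exact hJ hx hy hxy hadj
  have h1 := hα _ hind
  rw [card_union_of_disjoint (by
    rw [disjoint_left]
    intro x hx hx'
    exact hJS x hx' (mem_sdiff.1 hx).1)] at h1
  have h2 := card_sdiff_add_card_eq_card (show NS H S J ⊆ S from fun x hx => (mem_NS.1 hx).1)
  omega

/-- the chain of critical sets -/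
lemma chain {H : SimpleGraph V} {α : ℕ}
    (hα : ∀ I : Finset V, H.IsIndepSet (I : Set V) → I.card ≤ α)
    {S : Finset V} (hS : H.IsIndepSet (S : Set V)) (hSc : S.card = α)
    (K : ℕ → Finset V) (c : ℕ → V) (A : Finset ℕ)
    (hKS : ∀ i ∈ A, ∀ v ∈ K i, v ∉ S) (hK1 : ∀ i ∈ A, (NS H S (K i)).card + 1 ≤ (K i).card)
    (hKe : ∀ i ∈ A, ∀ x ∈ K i, ∀ y ∈ K i, H.Adj x y → x = c i ∨ y = c i)
    (hlt : ∀ i ∈ A, ∀ j ∈ A, i < j → c j ∉ K i) :
    (NS H S (A.biUnion K)).card + A.card ≤ (A.biUnion K).card := by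
  classical
  induction A using Finset.induction_on_max with
  | empty => simp [NS]
  | insert j A hj ih =>
    have hjA : j ∉ A := fun h => lt_irrefl _ (hj j h)
    have ih' := ih (fun i hi => hKS i (mem_insert_of_mem hi)) (fun i hi => hK1 i (mem_insert_of_mem hi))
      (fun i hi => hKe i (mem_insert_of_mem hi))
      (fun i hi l hl => hlt i (mem_insert_of_mem hi) l (mem_insert_of_mem hl))
    set U := A.biUnion K with hU
    have hcU : c j ∉ U := by
      intro h
      obtain ⟨i, hi, hi'⟩ := mem_biUnion.1 h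
      exact hlt i (mem_insert_of_mem hi) j (mem_insert_self _ _) (hj i hi) hi'
    have h1 : ((U ∩ K j).card) ≤ (NS H S (U ∩ K j)).card := by
      apply indep_le hα hS hSc
      · intro x hx y hy hxy hadj
        rcases hKe j (mem_insert_self _ _) x (mem_inter.1 hx).2 y (mem_inter.1 hy).2 hadj with h | h
        · exact hcU (h ▸ (mem_inter.1 hx).1)
        · exact hcU (h ▸ (mem_inter.1 hy).1)
      · intro x hx
        exact hKS j (mem_insert_self _ _) x (mem_inter.1 hx).2
    rw [biUnion_insert, ← hU, card_insert_of_notMem hjA]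
    have h2 : NS H S (K j ∪ U) = NS H S (K j) ∪ NS H S U := by
      ext x
      simp only [mem_NS, mem_union]
      constructor
      · rintro ⟨hx, y, hy | hy, hadj⟩
        · exact Or.inl ⟨hx, y, hy, hadj⟩
        · exact Or.inr ⟨hx, y, hy, hadj⟩
      · rintro (⟨hx, y, hy, hadj⟩ | ⟨hx, y, hy, hadj⟩)
        · exact ⟨hx, y, Or.inl hy, hadj⟩
        · exact ⟨hx, y, Or.inr hy, hadj⟩
    have h3 : NS H S (U ∩ K j) ⊆ NS H S (K j) ∩ NS H S U := by
      intro x hx
      obtain ⟨hxS, y, hy, hadj⟩ := mem_NS.1 hx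
      exact mem_inter.2 ⟨mem_NS.2 ⟨hxS, y, (mem_inter.1 hy).2, hadj⟩,
        mem_NS.2 ⟨hxS, y, (mem_inter.1 hy).1, hadj⟩⟩
    have h4 := card_le_card h3
    have h5 := card_union_add_card_inter (NS H S (K j)) (NS H S U)
    have h6 := card_union_add_card_inter (K j) U
    have h7 := hK1 j (mem_insert_self _ _)
    rw [h2]
    rw [inter_comm (K j) U] at h6
    omega

end Pool.Agent.X212.Stab
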