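import Pool.Agent.X212.Stab.Three

set_option autoImplicit false
set_option linter.unusedSectionVars false

/-!
`(3, 0)`-stable graphs with independence number at least `n / 2 - c` have bounded order: assembly.
-/

namespace Pool.Agent.X212.Three

open Finset Pool.Agent.X212.Stab

variable {V : Type} [Fintype V] [DecidableEq V]

lemma good_of {H : SimpleGraph V} {α : ℕ}
    (hα : ∀ I : Finset V, H.IsIndepSet (I : Set V) → I.card ≤ α)
    {S : Finset V} (hS : H.IsIndepSet (S : Set V)) (hSc : S.card = α) {I : Finset V}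
    (hI : H.IsIndepSet (I : Set V)) (hIc : I.card = α) :
    Good H S (I \ S) ∧ ∀ s ∈ S, s ∉ I → s ∈ NS H S (I \ S) := by
  have hi : H.IsIndepSet ((I \ S : Finset V) : Set V) := fun x hx y hy hxy =>
    hI (mem_sdiff.1 hx).1 (mem_sdiff.1 hy).1 hxy
  have h0 := indep_le hα hS hSc hi (fun j hj => (mem_sdiff.1 hj).2)
  have h1 : I ∩ S ⊆ S \ NS H S (I \ S) := by
    intro s hs
    obtain ⟨hsI, hsS⟩ := mem_inter.1 hs
    refine mem_sdiff.2 ⟨hsS, fun h => ?_⟩
    obtain ⟨_, j, hj, hsj⟩ := mem_NS.1 h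
    exact hI hsI (mem_sdiff.1 hj).1 hsj.ne hsj
  have h2 := card_le_card h1
  have h3 := card_sdiff_add_card_eq_card
    (show NS H S (I \ S) ⊆ S from fun x hx => (mem_NS.1 hx).1)
  have h4 := card_sdiff_add_card_inter I S
  refine ⟨⟨hi, fun v hv => (mem_sdiff.1 hv).2, by omega⟩, fun s hs hsI => ?_⟩
  have h5 : I ∩ S = S \ NS H S (I \ S) := eq_of_subset_of_card_le h1 (by omega)
  by_contra hcon
  have h6 : s ∈ I ∩ S := by
    rw [h5]
    exact mem_sdiff.2 ⟨hs, hcon⟩
  exact hsI (mem_inter.1 h6).1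

theorem main3 {R C Q : ℕ} (hR : ∀ (V : Type) (G : SimpleGraph V) (U : Finset V), R ≤ U.card →
      (∃ A ⊆ U, A.card = C + 1 ∧ G.IsClique (A : Set V)) ∨
      (∃ B ⊆ U, B.card = C + 1 ∧ G.IsIndepSet (B : Set V)))
    (hQ : ∀ (κ : Type) (D : Finset κ), D.card ≤ 2 ^ (C + 2 * R) * 2 ^ (C + 2 * R) * 4 →
      ∀ c : ℕ → ℕ → κ, ∀ U : Finset ℕ, Q ≤ U.card → (∀ i ∈ U, ∀ j ∈ U, i < j → c i j ∈ D) →
      ∃ M ⊆ U, M.card = C + 3 ∧ ∃ a, ∀ i ∈ M, ∀ j ∈ M, i < j → c i j = a)
    {H : SimpleGraph V} {α : ℕ}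
    (hα : ∀ I : Finset V, H.IsIndepSet (I : Set V) → I.card ≤ α)
    (havoid : ∀ X : Finset V, X.card ≤ 3 → ∃ I : Finset V, H.IsIndepSet (I : Set V) ∧
      (∀ v ∈ I, v ∉ X) ∧ I.card = α)
    (hcrit : ∀ a b, H.Adj a b → ∃ I : Finset V, I.card = α + 1 ∧ a ∈ I ∧ b ∈ I ∧
        ∀ x ∈ I, ∀ y ∈ I, H.Adj x y → (x = a ∧ y = b) ∨ (x = b ∧ y = a))
    (hn : Fintype.card V ≤ 2 * α + C) :
    α ≤ (C + 1) ^ (2 ^ (C + 2 * R)) * 2 ^ (C + 2 * R) * Q := by
  classical
  obtain ⟨S, hS, -, hSc⟩ := havoid ∅ (by simp)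
  have hst : ∀ v, ∃ I : Finset V, H.IsIndepSet (I : Set V) ∧ v ∉ I ∧ I.card = α := by
    intro v
    obtain ⟨I, hI, hv, hc⟩ := havoid {v} (by simp)
    exact ⟨I, hI, fun h => hv v h (mem_singleton_self v), hc⟩
  obtain ⟨m, hmi, hmT, hma⟩ := matchS hα hS hst
  obtain ⟨U, hUdef⟩ : ∃ U : Finset V, U = univ \ (S ∪ S.image m) := ⟨_, rfl⟩
  have hdisj : Disjoint S (S.image m) := by
    rw [disjoint_left]
    intro v hv hv'
    obtain ⟨s, hs, rfl⟩ := mem_image.1 hv'
    exact hmT s hs hv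
  have hUc : U.card ≤ C := by
    have h1 := card_sdiff_add_card_eq_card (subset_univ (S ∪ S.image m))
    rw [card_union_of_disjoint hdisj, card_image_of_injOn hmi, card_univ, ← hUdef] at h1
    omega
  have hUS : ∀ u ∈ U, u ∉ S := by
    intro u hu h
    rw [hUdef, mem_sdiff] at hu
    exact hu.2 (mem_union_left _ h)
  have hU : ∀ v, v ∉ S → v ∉ U → ∃ s ∈ S, m s = v := by
    intro v hv hvU
    rw [hUdef, mem_sdiff, not_and_not_right] at hvU
    rcases mem_union.1 (hvU (mem_univ v)) with h | h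
    · exact absurd h hv
    · exact mem_image.1 h
  obtain ⟨Z, hZc, hZ⟩ := Pool.Agent.X212.StabGen.cover_exists hR hα hS hSc hcrit hma hUc hU
  obtain ⟨W, hWdef⟩ : ∃ W : Finset V, W = U ∪ (Z \ S) := ⟨_, rfl⟩
  have hWc : W.card ≤ C + 2 * R := by
    rw [hWdef]
    have h1 := card_union_le U (Z \ S)
    have h2 : (Z \ S).card ≤ Z.card := card_le_card sdiff_subset
    omega
  have hWS : ∀ w ∈ W, w ∉ S := by
    intro w hw
    rw [hWdef, mem_union] at hw
    rcases hw with hw | hw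
    · exact hUS w hw
    · exact (mem_sdiff.1 hw).2
  have hUW : ∀ v, v ∉ S → v ∉ W → ∃ s ∈ S, m s = v := by
    intro v hv hvW
    refine hU v hv fun h => hvW ?_
    rw [hWdef]
    exact mem_union_left _ h
  have hZW : ∀ u v, u ∉ S → v ∉ S → u ∉ W → v ∉ W → ¬ H.Adj u v := by
    intro u v hu hv huW hvW hadj
    rw [hWdef] at huW hvW
    rcases hZ u v hadj hu hv with h | h
    · exact huW (mem_union_right _ (mem_sdiff.2 ⟨h, hu⟩))
    · exact hvW (mem_union_right _ (mem_sdiff.2 ⟨h, hv⟩))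
  have hlab : ∀ T : Finset V, ∃ l : V → Option V, ∃ D : Finset V, D.card ≤ C ∧
      (∀ s c, l s = some c → c ∈ D) ∧
      ∀ I : Finset V, H.IsIndepSet (I : Set V) → I.card = α → I ∩ W = T →
        ∀ s₁ ∈ Cm S m I, ∀ s₂ ∈ Cm S m I, l s₁ = l s₂ → s₁ = s₂ := by
    intro T
    by_cases h : ∃ I0 : Finset V, H.IsIndepSet (I0 : Set V) ∧ I0.card = α ∧ I0 ∩ W = T
    · obtain ⟨I0, hI0, hc, hT⟩ := h
      obtain ⟨l, h1, h2⟩ := lab hα hS hmT hmi hma hWS hUW hZW hI0 hc
      exact ⟨l, Cm S m I0, (card_Cm_le hSc hma hU I0 hI0 hc).trans hUc, h1,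
        fun I hI hIc hIT => h2 I hI hIc (hIT.trans hT.symm)⟩
    · exact ⟨fun _ => none, ∅, by simp, by simp,
        fun I hI hIc hIT => absurd ⟨I, hI, hIc, hIT⟩ h⟩
  choose l D hC hlC hl using hlab
  -- sets missing one edge and containing the `S`-end of another
  have hJ : ∀ s s' : V, ∃ J : Finset V, s ∈ S → s' ∈ S → s ≠ s' → (∀ T ∈ W.powerset, l T s = l T s') →
      Good H S J ∧ s ∈ NS H S J ∧ m s ∉ J ∧ s' ∉ NS H S J := by
    intro s s'
    by_cases hh : s ∈ S ∧ s' ∈ S ∧ s ≠ s' ∧ (∀ T ∈ W.powerset, l T s = l T s')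
    · obtain ⟨hs, hs', hne, hll⟩ := hh
      obtain ⟨I, hI, hIX, hIc⟩ := havoid {s, m s, m s'} card_le_three
      have i1 : s ∉ I := fun h => hIX _ h (by simp)
      have i2 : m s ∉ I := fun h => hIX _ h (by simp)
      have i3 : m s' ∉ I := fun h => hIX _ h (by simp)
      have i4 : s' ∈ I := by
        by_contra hcon
        exact hne (hl (I ∩ W) I hI hIc rfl s (mem_filter.2 ⟨hs, i1, i2⟩) s'
          (mem_filter.2 ⟨hs', hcon, i3⟩) (hll _ (mem_powerset.2 inter_subset_right)))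
      obtain ⟨g1, g2⟩ := good_of hα hS hSc hI hIc
      refine ⟨I \ S, fun _ _ _ _ => ⟨g1, g2 s hs i1, fun h => i2 (mem_sdiff.1 h).1, fun h => ?_⟩⟩
      obtain ⟨_, j, hj, hsj⟩ := mem_NS.1 h
      exact hI i4 (mem_sdiff.1 hj).1 hsj.ne hsj
    · exact ⟨∅, fun h1 h2 h3 h4 => absurd ⟨h1, h2, h3, h4⟩ hh⟩
  choose J hJ using hJ
  -- critical sets
  have hK : ∀ s : V, ∃ K : Finset V, s ∈ S → Good H S K ∧ m s ∈ K ∧ ∀ v ∈ K, H.Adj s v → v = m s := by
    intro s
    by_cases hs : s ∈ S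
    · obtain ⟨I, hIc, haI, hbI, hI⟩ := hcrit _ _ (hma s hs)
      refine ⟨I \ S, fun _ => ⟨⟨?_, fun v hv => (mem_sdiff.1 hv).2, ?_⟩,
        mem_sdiff.2 ⟨hbI, hmT s hs⟩, ?_⟩⟩
      · intro x hx y hy hxy hadj
        have hx' := mem_sdiff.1 (mem_coe.1 hx)
        have hy' := mem_sdiff.1 (mem_coe.1 hy)
        rcases hI x hx'.1 y hy'.1 hadj with ⟨rfl, _⟩ | ⟨_, rfl⟩
        · exact hx'.2 hs
        · exact hy'.2 hs
      · have h1 : (I ∩ S).erase s ⊆ S \ NS H S (I \ S) := by
          intro x hx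
          obtain ⟨hxs, hx⟩ := mem_erase.1 hx
          obtain ⟨hxI, hxS⟩ := mem_inter.1 hx
          refine mem_sdiff.2 ⟨hxS, fun h => ?_⟩
          obtain ⟨_, j, hj, hsj⟩ := mem_NS.1 h
          rcases hI x hxI j (mem_sdiff.1 hj).1 hsj with ⟨h, _⟩ | ⟨h, _⟩
          · exact hxs h
          · rw [h] at hxS
            exact hmT s hs hxS
        have h2 := card_le_card h1
        rw [card_erase_of_mem (mem_inter.2 ⟨haI, hs⟩)] at h2
        have h3 := card_sdiff_add_card_eq_card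
          (show NS H S (I \ S) ⊆ S from fun x hx => (mem_NS.1 hx).1)
        have h4 := card_sdiff_add_card_inter I S
        omega
      · intro v hv hadj
        rcases hI s haI v (mem_sdiff.1 hv).1 hadj with ⟨_, h⟩ | ⟨h, _⟩
        · exact h
        · exact absurd (h ▸ hs) (hmT s hs)
    · exact ⟨∅, fun h => absurd h hs⟩
  choose K hK using hK
  by_contra hcon
  rw [not_le] at hcon
  have hP : (W.powerset.pi (fun T => insert none ((D T).image some)) :
      Finset (∀ T ∈ W.powerset, Option V)).card ≤ (C + 1) ^ (2 ^ (C + 2 * R)) := by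
    rw [card_pi]
    refine (prod_le_pow_card W.powerset _ (C + 1) ?_).trans ?_
    · intro T _
      refine (card_insert_le _ _).trans ?_
      have h1 : ((D T).image some).card ≤ (D T).card := card_image_le
      have h2 := hC T
      omega
    · rw [card_powerset]
      exact Nat.pow_le_pow_right (by omega) (Nat.pow_le_pow_right (by norm_num) hWc)
  have hPW : W.powerset.card ≤ 2 ^ (C + 2 * R) := by
    rw [card_powerset]
    exact Nat.pow_le_pow_right (by norm_num) hWc
  obtain ⟨⟨y1, y2⟩, _, hy⟩ := exists_lt_card_fiber_of_mul_lt_card_of_maps_to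
    (s := S) (t := ((W.powerset.pi (fun T => insert none ((D T).image some)) :
      Finset (∀ T ∈ W.powerset, Option V)) ×ˢ W.powerset))
    (f := fun s => ((fun T _ => l T s : ∀ T ∈ W.powerset, Option V), K s ∩ W)) (n := Q) (by
      intro s _
      rw [mem_product]
      refine ⟨?_, mem_powerset.2 inter_subset_right⟩
      rw [mem_pi]
      intro T _
      change l T s ∈ insert none ((D T).image some)
      rcases h : l T s with _ | c
      · exact mem_insert_self _ _
      · exact mem_insert_of_mem (mem_image_of_mem _ (hlC T s c h)))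
    (by
      rw [card_product, hSc]
      exact (Nat.mul_le_mul_right Q (Nat.mul_le_mul hP hPW)).trans_lt hcon)
  obtain ⟨M₀, hM₀⟩ : ∃ M₀ : Finset V, M₀ = S.filter
    (fun s => ((fun T _ => l T s : ∀ T ∈ W.powerset, Option V), K s ∩ W) = (y1, y2)) := ⟨_, rfl⟩
  rw [← hM₀] at hy
  have hM₀S : ∀ s ∈ M₀, s ∈ S ∧ K s ∩ W = y2 ∧ ∀ T (h : T ∈ W.powerset), l T s = y1 T h := by
    intro s hs
    rw [hM₀, mem_filter, Prod.mk.injEq] at hs
    exact ⟨hs.1, hs.2.2, fun T h => congrFun (congrFun hs.2.1 T) h⟩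
  obtain ⟨d, hd⟩ : M₀.Nonempty := card_pos.1 (by omega)
  obtain ⟨e, heM, heI⟩ : ∃ e : ℕ → V, (∀ i < M₀.card, e i ∈ M₀) ∧
      ∀ i < M₀.card, ∀ j < M₀.card, e i = e j → i = j := by
    refine ⟨fun i => if h : i < M₀.card then (M₀.equivFin.symm ⟨i, h⟩).1 else d, ?_, ?_⟩
    · intro i hi
      simp only [dif_pos hi]
      exact (M₀.equivFin.symm ⟨i, hi⟩).2
    · intro i hi j hj hij
      simp only [dif_pos hi, dif_pos hj] at hij
      have := M₀.equivFin.symm.injective (Subtype.ext hij)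
      exact congrArg Fin.val this
  obtain ⟨M, hM, hMc, ⟨T1, T2, b1, b2⟩, ha⟩ := hQ (Finset V × Finset V × Bool × Bool)
    (W.powerset ×ˢ W.powerset ×ˢ univ ×ˢ univ) (by
      rw [card_product, card_product, card_product]
      simp only [card_univ, Fintype.card_bool]
      calc W.powerset.card * (W.powerset.card * (2 * 2))
          = W.powerset.card * W.powerset.card * 4 := by ring
        _ ≤ _ := Nat.mul_le_mul_right 4 (Nat.mul_le_mul hPW hPW))
    (fun i j => (J (e i) (e j) ∩ W, J (e j) (e i) ∩ W, decide (e j ∈ NS H S (K (e i))),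
      decide (e i ∈ NS H S (K (e j))))) (range M₀.card) (by rw [card_range]; omega) (by
      intro i _ j _ _
      simp only [mem_product, mem_univ, and_true]
      exact ⟨mem_powerset.2 inter_subset_right, mem_powerset.2 inter_subset_right⟩)
  obtain ⟨q, hqM, hqlt⟩ : ∃ q : ℕ → ℕ, (∀ k < C + 3, q k ∈ M) ∧
      ∀ i j, i < j → j < C + 3 → q i < q j := by
    refine ⟨fun k => if h : k < C + 3 then M.orderEmbOfFin hMc ⟨k, h⟩ else 0, ?_, ?_⟩
    · intro k hk
      simp only [dif_pos hk]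
      exact orderEmbOfFin_mem _ _ _
    · intro i j hij hj
      have hi : i < C + 3 := by omega
      simp only [dif_pos hi, dif_pos hj]
      exact (M.orderEmbOfFin hMc).strictMono (by exact hij)
  obtain ⟨x, hx⟩ : ∃ x : ℕ → V, ∀ k, x k = e (q k) := ⟨_, fun _ => rfl⟩
  have hqr : ∀ k < C + 3, q k < M₀.card := fun k hk => mem_range.1 (hM (hqM k hk))
  have hxM : ∀ k < C + 3, x k ∈ M₀ := fun k hk => by rw [hx]; exact heM _ (hqr k hk)
  have hxS : ∀ k < C + 3, x k ∈ S := fun k hk => (hM₀S _ (hxM k hk)).1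
  have hxne : ∀ i j, i < j → j < C + 3 → x i ≠ x j := by
    intro i j hij hj h
    rw [hx, hx] at h
    have := heI _ (hqr i (by omega)) _ (hqr j hj) h
    have := hqlt i j hij hj
    omega
  have hcol : ∀ i j, i < j → j < C + 3 → J (x i) (x j) ∩ W = T1 ∧ J (x j) (x i) ∩ W = T2 ∧
      decide (x j ∈ NS H S (K (x i))) = b1 ∧ decide (x i ∈ NS H S (K (x j))) = b2 := by
    intro i j hij hj
    have h := ha (q i) (hqM i (by omega)) (q j) (hqM j hj) (hqlt i j hij hj)
    rw [Prod.mk.injEq, Prod.mk.injEq, Prod.mk.injEq, ← hx, ← hx] at h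
    exact h
  have hJx : ∀ i < C + 3, ∀ j < C + 3, i ≠ j → Good H S (J (x i) (x j)) ∧
      x i ∈ NS H S (J (x i) (x j)) ∧ m (x i) ∉ J (x i) (x j) ∧ x j ∉ NS H S (J (x i) (x j)) := by
    intro i hi j hj hij
    refine hJ _ _ (hxS i hi) (hxS j hj) ?_ ?_
    · rcases lt_or_gt_of_ne hij with h | h
      · exact hxne i j h hj
      · exact (hxne j i h hi).symm
    · intro T hT
      rw [(hM₀S _ (hxM i hi)).2.2 T hT, (hM₀S _ (hxM j hj)).2.2 T hT]
  have hCbound : ∀ L : Finset V, (∀ j ∈ L, j ∉ S) → L.card ≤ (NS H S L).card + C := by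
    intro L hL
    have := card_NS_le hma hU L hL
    omega
  -- the two families
  have hA : ∀ j, ∃ A : Finset V, j < C + 2 → Good H S A ∧ x j ∈ NS H S A ∧ m (x j) ∉ A ∧
      ∀ i, j < i → i < C + 3 → x i ∉ NS H S A := by
    intro j
    by_cases hj : j < C + 2
    · obtain ⟨Y, g1, _, g3, g4⟩ := good_inf hα hS hSc hZW (fun i => J (x j) (x i)) T1
        ((range (C + 3)).filter (fun i => j < i)) ⟨j + 1, by simp; omega⟩ (by
          intro i hi
          rw [mem_filter, mem_range] at hi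
          exact ⟨(hJx j (by omega) i hi.1 (by omega)).1, (hcol j i hi.2 hi.1).1⟩)
      refine ⟨Y, fun _ => ⟨g1, g4 _ ?_, ?_, ?_⟩⟩
      · intro i hi
        rw [mem_filter, mem_range] at hi
        exact (hJx j (by omega) i hi.1 (by omega)).2.1
      · intro h
        exact (hJx j (by omega) (j + 1) (by omega) (by omega)).2.2.1 (g3 (j + 1) (by simp; omega) h)
      · intro i hji hi h
        exact (hJx j (by omega) i hi (by omega)).2.2.2 (NS_mono (g3 i (by simp; omega)) h)
    · exact ⟨∅, fun h => absurd h hj⟩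
  choose A hA using hA
  have hB : ∀ j, ∃ B : Finset V, 0 < j → j < C + 3 → Good H S B ∧ x j ∈ NS H S B ∧ m (x j) ∉ B ∧
      ∀ i < j, x i ∉ NS H S B := by
    intro j
    by_cases hj : 0 < j ∧ j < C + 3
    · obtain ⟨Y, g1, _, g3, g4⟩ := good_inf hα hS hSc hZW (fun i => J (x j) (x i)) T2
        (range j) ⟨0, by simp; omega⟩ (by
          intro i hi
          rw [mem_range] at hi
          exact ⟨(hJx j hj.2 i (by omega) (by omega)).1, (hcol i j hi hj.2).2.1⟩)
      refine ⟨Y, fun _ _ => ⟨g1, g4 _ ?_, ?_, ?_⟩⟩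
      · intro i hi
        rw [mem_range] at hi
        exact (hJx j hj.2 i (by omega) (by omega)).2.1
      · intro h
        exact (hJx j hj.2 0 (by omega) (by omega)).2.2.1 (g3 0 (by simp; omega) h)
      · intro i hij h
        exact (hJx j hj.2 i (by omega) (by omega)).2.2.2 (NS_mono (g3 i (by simp; omega)) h)
    · exact ⟨∅, fun h1 h2 => absurd ⟨h1, h2⟩ hj⟩
  choose B hB using hB
  rcases hb1 : b1 with _ | _
  · -- case 1
    have := final1 hα hS hSc hCbound (C + 1) x (fun k => m (x k)) A (fun k => K (x k))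
      (fun j hj => ⟨hxS j (by omega), hma _ (hxS j (by omega))⟩)
      (fun j hj => (hA j (by omega)).1)
      (fun j hj => (hK _ (hxS j (by omega))).1)
      (fun j hj => ⟨(hA j (by omega)).2.1, (hA j (by omega)).2.2.1⟩)
      (fun j hj i hij => (hA i (by omega)).2.2.2 j hij (by omega))
      (fun j hj => (hK _ (hxS j (by omega))).2)
      (fun j hj i hij => by
        have h := (hcol i j hij (by omega)).2.2.1
        rw [hb1, decide_eq_false_iff_not] at h
        exact h)
    omega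
  · rcases hb2 : b2 with _ | _
    · -- case 2
      have := final1 hα hS hSc hCbound (C + 1) (fun k => x (C + 2 - k)) (fun k => m (x (C + 2 - k)))
        (fun k => B (C + 2 - k)) (fun k => K (x (C + 2 - k)))
        (fun j hj => ⟨hxS _ (by omega), hma _ (hxS _ (by omega))⟩)
        (fun j hj => (hB (C + 2 - j) (by omega) (by omega)).1)
        (fun j hj => (hK _ (hxS _ (by omega))).1)
        (fun j hj => ⟨(hB (C + 2 - j) (by omega) (by omega)).2.1,
          (hB (C + 2 - j) (by omega) (by omega)).2.2.1⟩)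
        (fun j hj i hij => (hB (C + 2 - i) (by omega) (by omega)).2.2.2 (C + 2 - j) (by omega))
        (fun j hj => (hK _ (hxS _ (by omega))).2)
        (fun j hj i hij => by
          have h := (hcol (C + 2 - j) (C + 2 - i) (by omega) (by omega)).2.2.2
          rw [hb2, decide_eq_false_iff_not] at h
          exact h)
      omega
    · -- case 3
      obtain ⟨P, g1, _, g3, g4⟩ := good_inf hα hS hSc hZW (fun i => K (x i)) y2
        (range (C + 3)) ⟨0, by simp⟩ (by
          intro i hi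
          rw [mem_range] at hi
          exact ⟨(hK _ (hxS i hi)).1, (hM₀S _ (hxM i hi)).2.1⟩)
      have := final2 hα hS hSc hCbound (C + 1) x (fun k => m (x k)) A P
        (fun j hj => ⟨hxS j (by omega), hma _ (hxS j (by omega))⟩)
        (fun j hj => (hA j (by omega)).1) g1
        (fun j hj => ⟨(hA j (by omega)).2.1, (hA j (by omega)).2.2.1⟩)
        (fun j hj i hij => (hA i (by omega)).2.2.2 j hij (by omega))
        (fun j hj => ⟨g4 _ (by
          intro i hi
          rw [mem_range] at hi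
          rcases lt_trichotomy i j with h | h | h
          · have h' := (hcol i j h (by omega)).2.2.1
            rw [hb1, decide_eq_true_iff] at h'
            exact h'
          · subst h
            exact mem_NS.2 ⟨hxS i hi, m (x i), (hK _ (hxS i hi)).2.1, hma _ (hxS i hi)⟩
          · have h' := (hcol j i h hi).2.2.2
            rw [hb2, decide_eq_true_iff] at h'
            exact h'), fun v hv hadj => (hK _ (hxS j (by omega))).2.2 v (g3 j (by simp; omega) hv) hadj⟩)
      omega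

theorem bounded3 (C : ℕ) : ∃ N : ℕ, ∀ (V : Type) [Fintype V] (G : SimpleGraph V),
    Stable G 3 0 → Fintype.card V ≤ 2 * G.indepNum + C → Fintype.card V ≤ N := by
  classical
  obtain ⟨R, hR⟩ := ramsey (C + 1) (C + 1)
  obtain ⟨Q, hQ⟩ := mramsey (2 ^ (C + 2 * R) * 2 ^ (C + 2 * R) * 4) (C + 3)
  refine ⟨2 * ((C + 1) ^ (2 ^ (C + 2 * R)) * 2 ^ (C + 2 * R) * Q) + C, fun V _ G hG hn => ?_⟩
  obtain ⟨H, hHG, hα, hcrit⟩ := exists_crit G
  have hb := main3 hR hQ hα (fun X hX => by
    obtain ⟨I, hI, hIX, hIc⟩ := (stable_iff G 3).1 hG X hX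
    exact ⟨I, fun x hx y hy hxy h => hI hx hy hxy (hHG h), hIX, hIc⟩) hcrit hn
  omega

end Pool.Agent.X212.Three
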