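import Pool.Agent.X212.Stab.Basic

set_option autoImplicit false
set_option linter.unusedSectionVars false

/-!
Labels of matching edges: two matching edges with equal labels are not both missed by a maximum
independent set with a given trace.
-/

namespace Pool.Agent.X212.Stab

open Finset Relation

variable {V : Type} [Fintype V] [DecidableEq V]

lemma hallA {H : SimpleGraph V} {α : ℕ} (hα : ∀ I : Finset V, H.IsIndepSet (I : Set V) → I.card ≤ α)
    {I0 : Finset V} (hI0 : H.IsIndepSet (I0 : Set V)) (hc : I0.card = α) (A0 : Finset V)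
    (hA0 : H.IsIndepSet (A0 : Set V)) (hd : ∀ v ∈ A0, v ∉ I0) :
    ∃ f : V → V, Set.InjOn f (A0 : Set V) ∧ ∀ v ∈ A0, f v ∈ I0 ∧ H.Adj v (f v) := by
  classical
  have key := (Finset.all_card_le_biUnion_card_iff_exists_injective
    (fun v : {v // v ∈ A0} => I0.filter (fun w => H.Adj v.1 w))).1 ?_
  · obtain ⟨f, hf, hf'⟩ := key
    refine ⟨fun v => if h : v ∈ A0 then f ⟨v, h⟩ else v, ?_, ?_⟩
    · intro a ha b hb hab
      have ha' : a ∈ A0 := ha
      have hb' : b ∈ A0 := hb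
      simp only [dif_pos ha', dif_pos hb'] at hab
      exact congrArg Subtype.val (hf hab)
    · intro v hv
      simp only [dif_pos hv]
      exact mem_filter.1 (hf' ⟨v, hv⟩)
  · intro A
    have hNb : A.biUnion (fun v => I0.filter (fun w => H.Adj v.1 w)) ⊆ I0 := by
      intro w hw
      obtain ⟨v, _, hv⟩ := mem_biUnion.1 hw
      exact (mem_filter.1 hv).1
    have hdis : Disjoint (I0 \ A.biUnion (fun v => I0.filter (fun w => H.Adj v.1 w)))
        (A.map ⟨Subtype.val, Subtype.val_injective⟩) := by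
      rw [disjoint_left]
      intro w hw hw'
      obtain ⟨v, _, rfl⟩ := mem_map.1 hw'
      exact hd v.1 v.2 (mem_sdiff.1 hw).1
    have hind : H.IsIndepSet (((I0 \ A.biUnion (fun v => I0.filter (fun w => H.Adj v.1 w))) ∪
        (A.map ⟨Subtype.val, Subtype.val_injective⟩) : Finset V) : Set V) := by
      intro a ha b hb hab hadj
      rcases mem_union.1 (mem_coe.1 ha) with ha | ha <;> rcases mem_union.1 (mem_coe.1 hb) with hb | hb
      · exact hI0 (mem_sdiff.1 ha).1 (mem_sdiff.1 hb).1 hab hadj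
      · obtain ⟨v, hv, rfl⟩ := mem_map.1 hb
        exact (mem_sdiff.1 ha).2 (mem_biUnion.2 ⟨v, hv, mem_filter.2 ⟨(mem_sdiff.1 ha).1, hadj.symm⟩⟩)
      · obtain ⟨v, hv, rfl⟩ := mem_map.1 ha
        exact (mem_sdiff.1 hb).2 (mem_biUnion.2 ⟨v, hv, mem_filter.2 ⟨(mem_sdiff.1 hb).1, hadj⟩⟩)
      · obtain ⟨v, _, rfl⟩ := mem_map.1 ha
        obtain ⟨w, _, rfl⟩ := mem_map.1 hb
        exact hA0 v.2 w.2 hab hadj
    have h1 := hα _ hind
    rw [card_union_of_disjoint hdis, card_map] at h1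
    have h2 := card_sdiff_add_card_eq_card hNb
    omega

/-- the matching edges missed by `I` -/
def Cm (S : Finset V) (m : V → V) (I : Finset V) : Finset V := S.filter (fun s => s ∉ I ∧ m s ∉ I)

theorem lab {H : SimpleGraph V} {α : ℕ}
    (hα : ∀ I : Finset V, H.IsIndepSet (I : Set V) → I.card ≤ α)
    {S : Finset V} (hS : H.IsIndepSet (S : Set V))
    {m : V → V} (hmT : ∀ s ∈ S, m s ∉ S) (hmi : Set.InjOn m (S : Set V))
    (hma : ∀ s ∈ S, H.Adj s (m s)) {W : Finset V} (hWS : ∀ w ∈ W, w ∉ S)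
    (hU : ∀ v, v ∉ S → v ∉ W → ∃ s ∈ S, m s = v)
    (hZ : ∀ u v, u ∉ S → v ∉ S → u ∉ W → v ∉ W → ¬ H.Adj u v)
    {I0 : Finset V} (hI0 : H.IsIndepSet (I0 : Set V)) (hc : I0.card = α) :
    ∃ lab : V → Option V, (∀ s c, lab s = some c → c ∈ Cm S m I0) ∧
      ∀ I : Finset V, H.IsIndepSet (I : Set V) → I.card = α → I ∩ W = I0 ∩ W →
        ∀ s₁ ∈ Cm S m I, ∀ s₂ ∈ Cm S m I, lab s₁ = lab s₂ → s₁ = s₂ := by
  classical
  set Bs : Finset V := univ.filter (fun v => v ∉ W ∧ ∀ r ∈ I0, r ∈ W → ¬ H.Adj r v) with hBs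
  set D : Finset V := Bs \ I0 with hD
  have memB : ∀ v, v ∈ Bs ↔ (v ∉ W ∧ ∀ r ∈ I0, r ∈ W → ¬ H.Adj r v) := by
    intro v; simp [hBs]
  -- the matching
  obtain ⟨f1, hf1, hf1'⟩ := hallA hα hI0 hc (D ∩ S)
    (fun a ha b hb hab => hS (mem_inter.1 ha).2 (mem_inter.1 hb).2 hab)
    (fun v hv => (mem_sdiff.1 (mem_inter.1 hv).1).2)
  obtain ⟨f2, hf2, hf2'⟩ := hallA hα hI0 hc (D \ S)
    (fun a ha b hb hab => by
      have ha' := mem_sdiff.1 (mem_coe.1 ha)
      have hb' := mem_sdiff.1 (mem_coe.1 hb)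
      exact hZ a b ha'.2 hb'.2 ((memB a).1 (mem_sdiff.1 ha'.1).1).1 ((memB b).1 (mem_sdiff.1 hb'.1).1).1)
    (fun v hv => (mem_sdiff.1 (mem_sdiff.1 hv).1).2)
  set ν : V → V := fun v => if v ∈ S then f1 v else f2 v with hν
  have ν0 : ∀ v ∈ D, ν v ∈ I0 ∧ H.Adj v (ν v) := by
    intro v hv
    by_cases h : v ∈ S
    · simp only [hν, if_pos h]
      exact hf1' v (mem_inter.2 ⟨hv, h⟩)
    · simp only [hν, if_neg h]
      exact hf2' v (mem_sdiff.2 ⟨hv, h⟩)
  have νW : ∀ v ∈ D, ν v ∉ W := by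
    intro v hv hw
    exact ((memB v).1 (mem_sdiff.1 hv).1).2 _ (ν0 v hv).1 hw (ν0 v hv).2.symm
  have νS : ∀ v ∈ D, v ∈ S → ν v ∉ S := fun v hv hs hs' =>
    hS hs hs' (ν0 v hv).2.ne (ν0 v hv).2
  have νT : ∀ v ∈ D, v ∉ S → ν v ∈ S := by
    intro v hv hs
    by_contra hcon
    exact hZ v (ν v) hs hcon ((memB v).1 (mem_sdiff.1 hv).1).1 (νW v hv) (ν0 v hv).2
  have νi : ∀ v ∈ D, ∀ w ∈ D, ν v = ν w → v = w := by
    intro v hv w hw h
    by_cases h1 : v ∈ S
    · by_cases h2 : w ∈ S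
      · simp only [hν, if_pos h1, if_pos h2] at h
        exact hf1 (mem_inter.2 ⟨hv, h1⟩) (mem_inter.2 ⟨hw, h2⟩) h
      · exact absurd (h ▸ νT w hw h2) (νS v hv h1)
    · by_cases h2 : w ∈ S
      · exact absurd (h ▸ νT v hv h1) (νS w hw h2)
      · simp only [hν, if_neg h1, if_neg h2] at h
        exact hf2 (mem_sdiff.2 ⟨hv, h1⟩) (mem_sdiff.2 ⟨hw, h2⟩) h
  have hDI : ∀ v ∈ D, v ∉ I0 := fun v hv => (mem_sdiff.1 hv).2
  let P : V → V → Prop := fun s s' => s ∈ S ∧ s' ∈ S ∧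
    ((s ∈ D ∧ ν s = m s') ∨ (m s' ∈ D ∧ ν (m s') = s))
  have hright : ∀ s x1 x2, P s x1 → P s x2 → x1 = x2 := by
    rintro s x1 x2 ⟨_, hx1, h1⟩ ⟨_, hx2, h2⟩
    rcases h1 with ⟨hsD, h1⟩ | ⟨hmD, h1⟩ <;> rcases h2 with ⟨hsD', h2⟩ | ⟨hmD', h2⟩
    · exact hmi hx1 hx2 (h1.symm.trans h2)
    · exact absurd (h2 ▸ (ν0 _ hmD').1) (hDI s hsD)
    · exact absurd (h1 ▸ (ν0 _ hmD).1) (hDI s hsD')
    · exact hmi hx1 hx2 (νi _ hmD _ hmD' (h1.trans h2.symm))
  have hleft : ∀ x1 x2 s, P x1 s → P x2 s → x1 = x2 := by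
    rintro x1 x2 s ⟨_, _, h1⟩ ⟨_, _, h2⟩
    rcases h1 with ⟨hsD, h1⟩ | ⟨hmD, h1⟩ <;> rcases h2 with ⟨hsD', h2⟩ | ⟨hmD', h2⟩
    · exact νi _ hsD _ hsD' (h1.trans h2.symm)
    · exact absurd (h1 ▸ (ν0 _ hsD).1) (hDI _ hmD')
    · exact absurd (h2 ▸ (ν0 _ hsD').1) (hDI _ hmD)
    · exact h1.symm.trans h2
  -- facts on a set with the same trace
  have facts : ∀ I : Finset V, H.IsIndepSet (I : Set V) → I.card = α → I ∩ W = I0 ∩ W →
      (∀ v ∈ D, v ∉ I → ν v ∈ I) ∧ (∀ w ∈ I0, w ∉ I → w ∉ W → ∃ v ∈ D, ν v = w ∧ v ∈ I) := by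
    intro I hI hIc htr
    have htr' : ∀ w ∈ W, (w ∈ I ↔ w ∈ I0) := by
      intro w hw
      have := Finset.ext_iff.1 htr w
      simp only [mem_inter, hw, and_true] at this
      exact this
    have hIB : Bs ∩ I = I \ W := by
      ext v
      simp only [mem_inter, mem_sdiff, memB]
      constructor
      · rintro ⟨⟨h1, _⟩, h2⟩; exact ⟨h2, h1⟩
      · rintro ⟨h1, h2⟩
        refine ⟨⟨h2, fun r hr hrW hadj => ?_⟩, h1⟩
        exact hI ((htr' r hrW).2 hr) h1 hadj.ne hadj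
    have hIB0 : Bs ∩ I0 = I0 \ W := by
      ext v
      simp only [mem_inter, mem_sdiff, memB]
      constructor
      · rintro ⟨⟨h1, _⟩, h2⟩; exact ⟨h2, h1⟩
      · rintro ⟨h1, h2⟩
        refine ⟨⟨h2, fun r hr hrW hadj => ?_⟩, h1⟩
        exact hI0 hr h1 hadj.ne hadj
    have hcD : D.card = (Bs \ I).card := by
      have e1 := card_sdiff_add_card_inter Bs I0
      have e2 := card_sdiff_add_card_inter Bs I
      have e3 := card_sdiff_add_card_inter I0 W
      have e4 := card_sdiff_add_card_inter I W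
      rw [hIB] at e2
      rw [hIB0] at e1
      rw [htr] at e4
      rw [hD]
      omega
    set ψ : V → V := fun v => if v ∈ I then ν v else v with hψ
    have hψE : ∀ v ∈ D, ψ v ∈ Bs \ I := by
      intro v hv
      by_cases h : v ∈ I
      · simp only [hψ, if_pos h]
        refine mem_sdiff.2 ⟨(memB _).2 ⟨νW v hv, fun r hr _ hadj => ?_⟩, fun h' => ?_⟩
        · exact hI0 hr (ν0 v hv).1 hadj.ne hadj
        · exact hI h h' (ν0 v hv).2.ne (ν0 v hv).2
      · simp only [hψ, if_neg h]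
        exact mem_sdiff.2 ⟨(mem_sdiff.1 hv).1, h⟩
    have hψi : Set.InjOn ψ (D : Set V) := by
      intro v hv w hw h
      by_cases h1 : v ∈ I <;> by_cases h2 : w ∈ I
      · simp only [hψ, if_pos h1, if_pos h2] at h
        exact νi v hv w hw h
      · simp only [hψ, if_pos h1, if_neg h2] at h
        exact absurd (h ▸ (ν0 v hv).1) (hDI w hw)
      · simp only [hψ, if_neg h1, if_pos h2] at h
        exact absurd (h ▸ (ν0 w hw).1) (hDI v hv)
      · simpa only [hψ, if_neg h1, if_neg h2] using h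
    have himg : D.image ψ = Bs \ I := by
      apply eq_of_subset_of_card_le
      · intro w hw
        obtain ⟨v, hv, rfl⟩ := mem_image.1 hw
        exact hψE v hv
      · rw [card_image_of_injOn hψi, hcD]
    constructor
    · intro v hv hvI
      by_contra hcon
      have h1 : ν v ∈ Bs \ I := mem_sdiff.2 ⟨(memB _).2 ⟨νW v hv, fun r hr _ hadj =>
        hI0 hr (ν0 v hv).1 hadj.ne hadj⟩, hcon⟩
      rw [← himg] at h1
      obtain ⟨v', hv', h2⟩ := mem_image.1 h1
      by_cases h3 : v' ∈ I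
      · simp only [hψ, if_pos h3] at h2
        exact hvI (νi v' hv' v hv h2 ▸ h3)
      · simp only [hψ, if_neg h3] at h2
        exact hDI v' hv' (h2 ▸ (ν0 v hv).1)
    · intro w hw hwI hwW
      have h1 : w ∈ Bs \ I := mem_sdiff.2 ⟨(memB _).2 ⟨hwW, fun r hr _ hadj =>
        hI0 hr hw hadj.ne hadj⟩, hwI⟩
      rw [← himg] at h1
      obtain ⟨v', hv', h2⟩ := mem_image.1 h1
      by_cases h3 : v' ∈ I
      · simp only [hψ, if_pos h3] at h2
        exact ⟨v', hv', h2, h3⟩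
      · simp only [hψ, if_neg h3] at h2
        exact absurd (h2 ▸ hw) (hDI v' hv')
  -- claims
  have claimA : ∀ I : Finset V, H.IsIndepSet (I : Set V) → I.card = α → I ∩ W = I0 ∩ W →
      ∀ s s', P s s' → s ∉ I → m s' ∈ I := by
    rintro I hI hIc htr s s' ⟨_, _, h⟩ hs
    obtain ⟨F1, _⟩ := facts I hI hIc htr
    rcases h with ⟨hsD, h⟩ | ⟨hmD, h⟩
    · exact h ▸ F1 s hsD hs
    · by_contra hcon
      exact hs (h ▸ F1 _ hmD hcon)
  have claimA1 : ∀ I : Finset V, H.IsIndepSet (I : Set V) → I.card = α → I ∩ W = I0 ∩ W →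
      ∀ s s', ReflTransGen P s s' → s ∉ I → s' ∉ I := by
    intro I hI hIc htr s s' h hs
    induction h with
    | refl => exact hs
    | tail _ h2 ih =>
      intro h3
      have h4 := claimA I hI hIc htr _ _ h2 ih
      exact hI h3 h4 (hma _ h2.2.1).ne (hma _ h2.2.1)
  have claimA2 : ∀ I : Finset V, H.IsIndepSet (I : Set V) → I.card = α → I ∩ W = I0 ∩ W →
      ∀ s₁ ∈ Cm S m I, ∀ s₂ ∈ Cm S m I, ReflTransGen P s₁ s₂ → s₁ = s₂ := by
    intro I hI hIc htr s₁ h1 s₂ h2 h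
    rcases ReflTransGen.cases_tail h with h3 | ⟨y, h3, h4⟩
    · exact h3.symm
    · have h5 := claimA1 I hI hIc htr _ _ h3 (mem_filter.1 h1).2.1
      exact absurd (claimA I hI hIc htr _ _ h4 h5) (mem_filter.1 h2).2.2
  have claimB : ∀ I : Finset V, H.IsIndepSet (I : Set V) → I.card = α → I ∩ W = I0 ∩ W →
      ∀ s ∈ Cm S m I, ∃ c ∈ Cm S m I0, ReflTransGen P s c ∨ ReflTransGen P c s := by
    intro I hI hIc htr s hs
    obtain ⟨F1, F2⟩ := facts I hI hIc htr
    have htr' : ∀ w ∈ W, (w ∈ I ↔ w ∈ I0) := by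
      intro w hw
      have := Finset.ext_iff.1 htr w
      simp only [mem_inter, hw, and_true] at this
      exact this
    by_contra hno
    push Not at hno
    have hs0 := mem_filter.1 hs
    have hsC : s ∉ Cm S m I0 := fun h => (hno s h).1 ReflTransGen.refl
    by_cases hsI0 : s ∈ I0
    · -- forward
      set Q : Finset V := univ.filter (fun x => x ∈ S ∧ x ∈ I0 ∧ x ∉ I ∧ ReflTransGen P s x) with hQ
      have hsQ : s ∈ Q := by
        rw [hQ, mem_filter]
        exact ⟨mem_univ _, hs0.1, hsI0, hs0.2.1, ReflTransGen.refl⟩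
      have hstep : ∀ x, ∃ x', x ∈ Q → P x x' ∧ x' ∈ Q := by
        intro x
        by_cases hx : x ∈ Q
        · obtain ⟨_, hxS, hxI0, hxI, hxr⟩ := mem_filter.1 hx
          obtain ⟨v, hvD, hvx, hvI⟩ := F2 x hxI0 hxI (fun h => hWS x h hxS)
          have hvS : v ∉ S := fun h => νS v hvD h (hvx ▸ hxS)
          obtain ⟨x', hx'S, hx'v⟩ := hU v hvS ((memB v).1 (mem_sdiff.1 hvD).1).1
          have hP : P x x' := ⟨hxS, hx'S, Or.inr ⟨hx'v ▸ hvD, by rw [hx'v]; exact hvx⟩⟩
          have hr : ReflTransGen P s x' := hxr.tail hP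
          have hx'I : x' ∉ I := fun h => hI h (hx'v ▸ hvI) (hma x' hx'S).ne (hma x' hx'S)
          have hx'I0 : x' ∈ I0 := by
            by_contra hcon
            exact (hno x' (mem_filter.2 ⟨hx'S, hcon, hx'v ▸ hDI v hvD⟩)).1 hr
          exact ⟨x', fun _ => ⟨hP, mem_filter.2 ⟨mem_univ _, hx'S, hx'I0, hx'I, hr⟩⟩⟩
        · exact ⟨x, fun h => absurd h hx⟩
      choose φ hφ using hstep
      have hinj : Set.InjOn φ (Q : Set V) := by
        intro a ha b hb hab
        have h1 := (hφ a ha).1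
        have h2 := (hφ b hb).1
        rw [hab] at h1
        exact hleft _ _ _ h1 h2
      have himg : Q.image φ = Q := by
        apply eq_of_subset_of_card_le
        · intro w hw
          obtain ⟨v, hv, rfl⟩ := mem_image.1 hw
          exact (hφ v hv).2
        · rw [card_image_of_injOn hinj]
      rw [← himg] at hsQ
      obtain ⟨y, hy, hys⟩ := mem_image.1 hsQ
      have h1 := (hφ y hy).1
      rw [hys] at h1
      exact hs0.2.2 (claimA I hI hIc htr _ _ h1 (mem_filter.1 hy).2.2.2.1)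
    · -- backward
      have hmI0 : m s ∈ I0 := by
        by_contra hcon
        exact hsC (mem_filter.2 ⟨hs0.1, hsI0, hcon⟩)
      set Q : Finset V := univ.filter (fun x => x ∈ S ∧ m x ∈ I0 ∧ m x ∉ I ∧ ReflTransGen P x s)
        with hQ
      have hsQ : s ∈ Q := by
        rw [hQ, mem_filter]
        exact ⟨mem_univ _, hs0.1, hmI0, hs0.2.2, ReflTransGen.refl⟩
      have hstep : ∀ x, ∃ v, x ∈ Q → P v x ∧ v ∈ Q ∧ v ∈ I := by
        intro x
        by_cases hx : x ∈ Q
        · obtain ⟨_, hxS, hxI0, hxI, hxr⟩ := mem_filter.1 hx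
          obtain ⟨v, hvD, hvx, hvI⟩ := F2 (m x) hxI0 hxI (fun h => hxI ((htr' _ h).2 hxI0))
          have hvS : v ∈ S := by
            by_contra hcon
            exact hmT x hxS (hvx ▸ νT v hvD hcon)
          have hP : P v x := ⟨hvS, hxS, Or.inl ⟨hvD, hvx⟩⟩
          have hr : ReflTransGen P v s := ReflTransGen.head hP hxr
          have hmvI : m v ∉ I := fun h => hI hvI h (hma v hvS).ne (hma v hvS)
          have hmvI0 : m v ∈ I0 := by
            by_contra hcon
            exact (hno v (mem_filter.2 ⟨hvS, hDI v hvD, hcon⟩)).2 hr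
          exact ⟨v, fun _ => ⟨hP, mem_filter.2 ⟨mem_univ _, hvS, hmvI0, hmvI, hr⟩, hvI⟩⟩
        · exact ⟨x, fun h => absurd h hx⟩
      choose φ hφ using hstep
      have hinj : Set.InjOn φ (Q : Set V) := by
        intro a ha b hb hab
        have h1 := (hφ a ha).1
        have h2 := (hφ b hb).1
        rw [hab] at h1
        exact hright _ _ _ h1 h2
      have himg : Q.image φ = Q := by
        apply eq_of_subset_of_card_le
        · intro w hw
          obtain ⟨v, hv, rfl⟩ := mem_image.1 hw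
          exact (hφ v hv).2.1
        · rw [card_image_of_injOn hinj]
      rw [← himg] at hsQ
      obtain ⟨y, hy, hys⟩ := mem_image.1 hsQ
      exact hs0.2.1 (hys ▸ (hφ y hy).2.2)
  -- the label
  have hlab : ∀ s : V, ∃ o : Option V, (∀ c, o = some c → c ∈ Cm S m I0 ∧
      (ReflTransGen P s c ∨ ReflTransGen P c s)) ∧
      (o = none → ¬ ∃ c ∈ Cm S m I0, ReflTransGen P s c ∨ ReflTransGen P c s) := by
    intro s
    by_cases h : ∃ c ∈ Cm S m I0, ReflTransGen P s c ∨ ReflTransGen P c s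
    · obtain ⟨c, hc1, hc2⟩ := h
      refine ⟨some c, ?_, fun h => by simp at h⟩
      intro c' hc'
      rw [Option.some.injEq] at hc'
      subst hc'
      exact ⟨hc1, hc2⟩
    · exact ⟨none, fun c hc => by simp at hc, fun _ => h⟩
  choose lb hlb1 hlb2 using hlab
  refine ⟨lb, fun s c h => (hlb1 s c h).1, ?_⟩
  intro I hI hIc htr s₁ h1 s₂ h2 heq
  have hb1 := claimB I hI hIc htr s₁ h1
  match hl : lb s₁, heq with
  | none, heq => exact absurd hb1 (hlb2 s₁ hl)
  | some c, heq =>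
    have e1 := (hlb1 s₁ c hl).2
    have e2 := (hlb1 s₂ c heq.symm).2
    have tot1 : ∀ a b c, ReflTransGen P a b → ReflTransGen P a c →
        ReflTransGen P b c ∨ ReflTransGen P c b := by
      intro a b c hab hac
      exact ReflTransGen.total_of_right_unique (fun x y z hxy hxz => hright x y z hxy hxz) hab hac
    have tot2 : ∀ a b c, ReflTransGen P b a → ReflTransGen P c a →
        ReflTransGen P b c ∨ ReflTransGen P c b := by
      intro a b c hab hac
      have h3 := ReflTransGen.total_of_right_unique (r := Function.swap P)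
        (fun x y z hxy hxz => hleft y z x hxy hxz) (reflTransGen_swap.2 hab)
        (reflTransGen_swap.2 hac)
      rcases h3 with h3 | h3
      · exact Or.inr (reflTransGen_swap.1 h3)
      · exact Or.inl (reflTransGen_swap.1 h3)
    have fin : (ReflTransGen P s₁ s₂ ∨ ReflTransGen P s₂ s₁) → s₁ = s₂ := by
      rintro (h | h)
      · exact claimA2 I hI hIc htr s₁ h1 s₂ h2 h
      · exact (claimA2 I hI hIc htr s₂ h2 s₁ h1 h).symm
    apply fin
    rcases e1 with e1 | e1 <;> rcases e2 with e2 | e2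
    · exact tot2 c s₁ s₂ e1 e2
    · exact Or.inl (e1.trans e2)
    · exact Or.inr (e2.trans e1)
    · exact tot1 c s₁ s₂ e1 e2

end Pool.Agent.X212.Stab
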