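import Pool.Agent.X212.Stab.Cov
import Pool.Agent.X212.Stab.Lab

set_option autoImplicit false
set_option linter.unusedSectionVars false

/-!
Tight `(4, 0)`-stable graphs have bounded order.
-/

namespace Pool.Agent.X212.Stab

open Finset

/-- an edge-minimal spanning subgraph with the same independence number -/
lemma exists_crit {V : Type} [Fintype V] (G : SimpleGraph V) :
    ∃ H : SimpleGraph V, H ≤ G ∧
      (∀ I : Finset V, H.IsIndepSet (I : Set V) → I.card ≤ G.indepNum) ∧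
      ∀ a b, H.Adj a b → ∃ I : Finset V, I.card = G.indepNum + 1 ∧ a ∈ I ∧ b ∈ I ∧
        ∀ x ∈ I, ∀ y ∈ I, H.Adj x y → (x = a ∧ y = b) ∨ (x = b ∧ y = a) := by
  classical
  obtain ⟨H, hH⟩ := (Set.toFinite {H : SimpleGraph V | H ≤ G ∧ H.indepNum = G.indepNum}).exists_minimal
    ⟨G, le_rfl, rfl⟩
  obtain ⟨hHG, hHn⟩ := hH.prop
  have hle : ∀ I : Finset V, H.IsIndepSet (I : Set V) → I.card ≤ G.indepNum := by
    intro I hI
    rw [← hHn]
    exact hI.card_le_indepNum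
  refine ⟨H, hHG, hle, ?_⟩
  intro a b hab
  have hdel : H.deleteEdges {s(a, b)} ≤ H := SimpleGraph.deleteEdges_le _
  have hne : (H.deleteEdges {s(a, b)}).indepNum ≠ G.indepNum := by
    intro h
    have h1 : H ≤ H.deleteEdges {s(a, b)} := hH.le_of_le ⟨hdel.trans hHG, h⟩ hdel
    have h2 := h1 hab
    rw [SimpleGraph.deleteEdges_adj] at h2
    exact h2.2 rfl
  have hge : G.indepNum ≤ (H.deleteEdges {s(a, b)}).indepNum := by
    rw [← hHn]
    obtain ⟨s, hs⟩ := H.exists_isNIndepSet_indepNum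
    have h1 : (H.deleteEdges {s(a, b)}).IsIndepSet (s : Set V) :=
      fun x hx y hy hxy h => hs.isIndepSet hx hy hxy (hdel h)
    have h2 := h1.card_le_indepNum
    rwa [hs.card_eq] at h2
  obtain ⟨s, hs⟩ := (H.deleteEdges {s(a, b)}).exists_isNIndepSet_indepNum
  have hsc := hs.card_eq
  obtain ⟨I, hIs, hIc⟩ := exists_subset_card_eq (s := s) (n := G.indepNum + 1) (by omega)
  have hI : ∀ x ∈ I, ∀ y ∈ I, H.Adj x y → (x = a ∧ y = b) ∨ (x = b ∧ y = a) := by
    intro x hx y hy hxy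
    by_contra hcon
    refine hs.isIndepSet (hIs hx) (hIs hy) hxy.ne ?_
    rw [SimpleGraph.deleteEdges_adj]
    refine ⟨hxy, fun h => hcon ?_⟩
    rw [Set.mem_singleton_iff, Sym2.eq_iff] at h
    exact h
  have hnot : ¬ H.IsIndepSet (I : Set V) := by
    intro h
    have := hle I h
    omega
  have : ∃ x ∈ I, ∃ y ∈ I, H.Adj x y := by
    by_contra hcon
    push Not at hcon
    exact hnot fun x hx y hy _ => hcon x hx y hy
  obtain ⟨x, hx, y, hy, hxy⟩ := this
  rcases hI x hx y hy hxy with ⟨rfl, rfl⟩ | ⟨rfl, rfl⟩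
  · exact ⟨I, hIc, hx, hy, hI⟩
  · exact ⟨I, hIc, hy, hx, hI⟩

variable {V : Type} [Fintype V] [DecidableEq V]

lemma card_NS_le {H : SimpleGraph V} {S : Finset V} {m : V → V}
    (hma : ∀ s ∈ S, H.Adj s (m s)) {U : Finset V}
    (hU : ∀ v, v ∉ S → v ∉ U → ∃ s ∈ S, m s = v) (J : Finset V) (hJ : ∀ j ∈ J, j ∉ S) :
    J.card ≤ (NS H S J).card + U.card := by
  have h1 : J ⊆ (NS H S J).image m ∪ U := by
    intro j hj
    by_cases hjU : j ∈ U
    · exact mem_union_right _ hjU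
    · obtain ⟨s, hs, rfl⟩ := hU j (hJ j hj) hjU
      exact mem_union_left _ (mem_image_of_mem _ (mem_NS.2 ⟨hs, m s, hj, hma s hs⟩))
  have h2 := (card_le_card h1).trans (card_union_le _ _)
  have h3 : ((NS H S J).image m).card ≤ (NS H S J).card := card_image_le
  omega

lemma card_Cm_le {H : SimpleGraph V} {α : ℕ} {S : Finset V} (hSc : S.card = α) {m : V → V}
    (hma : ∀ s ∈ S, H.Adj s (m s)) {U : Finset V}
    (hU : ∀ v, v ∉ S → v ∉ U → ∃ s ∈ S, m s = v) (I : Finset V)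
    (hI : H.IsIndepSet (I : Set V)) (hIc : I.card = α) : (Cm S m I).card ≤ U.card := by
  have h1 : I ⊆ (S.filter (fun s => s ∈ I) ∪ (S.filter (fun s => m s ∈ I)).image m) ∪ U := by
    intro v hv
    by_cases hvU : v ∈ U
    · exact mem_union_right _ hvU
    · by_cases hvS : v ∈ S
      · exact mem_union_left _ (mem_union_left _ (mem_filter.2 ⟨hvS, hv⟩))
      · obtain ⟨s, hs, rfl⟩ := hU v hvS hvU
        exact mem_union_left _ (mem_union_right _ (mem_image_of_mem _ (mem_filter.2 ⟨hs, hv⟩)))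
  have h2 := (card_le_card h1).trans (card_union_le _ _)
  have h3 := card_union_le (S.filter (fun s => s ∈ I)) ((S.filter (fun s => m s ∈ I)).image m)
  have h4 : ((S.filter (fun s => m s ∈ I)).image m).card ≤ (S.filter (fun s => m s ∈ I)).card :=
    card_image_le
  have h5 : (Cm S m I ∪ (S.filter (fun s => s ∈ I) ∪ S.filter (fun s => m s ∈ I))) ⊆ S := by
    intro v hv
    rcases mem_union.1 hv with hv | hv
    · exact (mem_filter.1 hv).1
    · rcases mem_union.1 hv with hv | hv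
      · exact (mem_filter.1 hv).1
      · exact (mem_filter.1 hv).1
  have h6 := card_le_card h5
  rw [card_union_of_disjoint, card_union_of_disjoint] at h6
  · omega
  · rw [disjoint_left]
    intro v hv hv'
    have e1 := mem_filter.1 hv
    have e2 := mem_filter.1 hv'
    exact hI e1.2 e2.2 (hma v e1.1).ne (hma v e1.1)
  · rw [disjoint_left]
    intro v hv hv'
    have e1 := (mem_filter.1 hv).2
    rcases mem_union.1 hv' with hv' | hv'
    · exact e1.1 (mem_filter.1 hv').2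
    · exact e1.2 (mem_filter.1 hv').2

/-- the bound for the vertex cover number of the complement of `S` -/
lemma cover_exists {R : ℕ} (hR : ∀ (V : Type) (G : SimpleGraph V) (U : Finset V), R ≤ U.card →
      (∃ A ⊆ U, A.card = 5 ∧ G.IsClique (A : Set V)) ∨
      (∃ B ⊆ U, B.card = 5 ∧ G.IsIndepSet (B : Set V)))
    {H : SimpleGraph V} {α : ℕ}
    (hα : ∀ I : Finset V, H.IsIndepSet (I : Set V) → I.card ≤ α)
    {S : Finset V} (hS : H.IsIndepSet (S : Set V)) (hSc : S.card = α)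
    (hcrit : ∀ a b, H.Adj a b → ∃ I : Finset V, I.card = α + 1 ∧ a ∈ I ∧ b ∈ I ∧
        ∀ x ∈ I, ∀ y ∈ I, H.Adj x y → (x = a ∧ y = b) ∨ (x = b ∧ y = a))
    {m : V → V} (hma : ∀ s ∈ S, H.Adj s (m s)) {U : Finset V} (hUc : U.card ≤ 4)
    (hU : ∀ v, v ∉ S → v ∉ U → ∃ s ∈ S, m s = v) :
    ∃ Z : Finset V, Z.card ≤ 2 * R ∧ ∀ u v, H.Adj u v → u ∉ S → v ∉ S → u ∈ Z ∨ v ∈ Z := by
  classical
  rcases edges_or_cover H S R with h | ⟨a, b, hab, hdis⟩
  · exact h
  exfalso
  have hK : ∀ i, ∃ K : Finset V, i < R → ((NS H S K).card + 1 ≤ K.card ∧ (∀ v ∈ K, v ∉ S) ∧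
      ∀ x ∈ K, ∀ y ∈ K, H.Adj x y → (x = a i ∧ y = b i) ∨ (x = b i ∧ y = a i)) := by
    intro i
    by_cases hi : i < R
    · obtain ⟨hadj, haS, hbS⟩ := hab i hi
      obtain ⟨I, hIc, haI, hbI, hI⟩ := hcrit _ _ hadj
      refine ⟨I \ S, fun _ => ⟨?_, fun v hv => (mem_sdiff.1 hv).2,
        fun x hx y hy => hI x (mem_sdiff.1 hx).1 y (mem_sdiff.1 hy).1⟩⟩
      have h1 : I ∩ S ⊆ S \ NS H S (I \ S) := by
        intro s hs
        obtain ⟨hsI, hsS⟩ := mem_inter.1 hs
        refine mem_sdiff.2 ⟨hsS, fun h => ?_⟩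
        obtain ⟨_, j, hj, hsj⟩ := mem_NS.1 h
        rcases hI s hsI j (mem_sdiff.1 hj).1 hsj with ⟨rfl, _⟩ | ⟨rfl, _⟩
        · exact haS hsS
        · exact hbS hsS
      have h2 := card_le_card h1
      have h3 := card_sdiff_add_card_eq_card
        (show NS H S (I \ S) ⊆ S from fun x hx => (mem_NS.1 hx).1)
      have h4 := card_sdiff_add_card_inter I S
      omega
    · exact ⟨∅, fun h => absurd h hi⟩
  choose K hK using hK
  have hboth : ∀ i < R, ∀ j < R, i ≠ j → ¬ (a j ∈ K i ∧ b j ∈ K i) := by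
    intro i hi j hj hij hh
    obtain ⟨_, _, h3⟩ := hK i hi
    obtain ⟨e1, e2, _, _⟩ := hdis i hi j hj hij
    rcases h3 _ hh.1 _ hh.2 (hab j hj).1 with ⟨h, _⟩ | ⟨h, _⟩
    · exact e1 h
    · exact e2 h
  have final : ∀ (c : ℕ → V) (A : Finset ℕ), A ⊆ range R → A.card = 5 →
      (∀ i ∈ A, ∀ x y, ((x = a i ∧ y = b i) ∨ (x = b i ∧ y = a i)) → x = c i ∨ y = c i) →
      (∀ i ∈ A, ∀ j ∈ A, i < j → c j ∉ K i) → False := by
    intro c A hA hAc hc hlt
    have h1 := chain hα hS hSc K c A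
      (fun i hi => (hK i (mem_range.1 (hA hi))).2.1)
      (fun i hi => (hK i (mem_range.1 (hA hi))).1)
      (fun i hi x hx y hy hxy => hc i hi x y ((hK i (mem_range.1 (hA hi))).2.2 x hx y hy hxy))
      hlt
    have h2 := card_NS_le hma hU (A.biUnion K) (by
      intro j hj
      obtain ⟨i, hi, hij⟩ := mem_biUnion.1 hj
      exact (hK i (mem_range.1 (hA hi))).2.1 j hij)
    omega
  rcases hR ℕ (SimpleGraph.fromRel (fun i j => i < j ∧ a j ∉ K i)) (range R) (by simp) with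
    ⟨A, hA, hAc, hcl⟩ | ⟨B, hB, hBc, hi⟩
  · refine final a A hA hAc ?_ ?_
    · rintro i _ x y (⟨h, _⟩ | ⟨_, h⟩)
      · exact Or.inl h
      · exact Or.inr h
    · intro i hi j hj hij
      have h1 := hcl (mem_coe.2 hi) (mem_coe.2 hj) hij.ne
      rw [SimpleGraph.fromRel_adj] at h1
      rcases h1.2 with h | h
      · exact h.2
      · exact absurd h.1 (by omega)
  · refine final b B hB hBc ?_ ?_
    · rintro i _ x y (⟨_, h⟩ | ⟨h, _⟩)
      · exact Or.inr h
      · exact Or.inl h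
    · intro i hi' j hj hij hb
      refine hi (mem_coe.2 hi') (mem_coe.2 hj) hij.ne
        ((SimpleGraph.fromRel_adj _ _ _).2 ⟨hij.ne, Or.inl ⟨hij, fun ha => ?_⟩⟩)
      exact hboth i (mem_range.1 (hB hi')) j (mem_range.1 (hB hj)) hij.ne ⟨ha, hb⟩

/-- the bound for the independence number -/
theorem main_bound {R : ℕ} (hR : ∀ (V : Type) (G : SimpleGraph V) (U : Finset V), R ≤ U.card →
      (∃ A ⊆ U, A.card = 5 ∧ G.IsClique (A : Set V)) ∨
      (∃ B ⊆ U, B.card = 5 ∧ G.IsIndepSet (B : Set V)))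
    {H : SimpleGraph V} {α : ℕ}
    (hα : ∀ I : Finset V, H.IsIndepSet (I : Set V) → I.card ≤ α)
    (havoid : ∀ X : Finset V, X.card ≤ 4 → ∃ I : Finset V, H.IsIndepSet (I : Set V) ∧
      (∀ v ∈ I, v ∉ X) ∧ I.card = α)
    (hcrit : ∀ a b, H.Adj a b → ∃ I : Finset V, I.card = α + 1 ∧ a ∈ I ∧ b ∈ I ∧
        ∀ x ∈ I, ∀ y ∈ I, H.Adj x y → (x = a ∧ y = b) ∨ (x = b ∧ y = a))
    (hn : Fintype.card V ≤ 2 * α + 4) : α ≤ 5 ^ (2 ^ (4 + 2 * R)) := by
  classical
  obtain ⟨S, hS, -, hSc⟩ := havoid ∅ (by simp)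
  have hst : ∀ v, ∃ I : Finset V, H.IsIndepSet (I : Set V) ∧ v ∉ I ∧ I.card = α := by
    intro v
    obtain ⟨I, hI, hv, hc⟩ := havoid {v} (by simp)
    exact ⟨I, hI, fun h => hv v h (mem_singleton_self v), hc⟩
  obtain ⟨m, hmi, hmT, hma⟩ := matchS hα hS hst
  obtain ⟨U, hUdef⟩ : ∃ U : Finset V, U = univ \ (S ∪ S.image m) := ⟨_, rfl⟩
  have hdisj : Disjoint S (S.image m) := by
    rw [disjoint_left]
    intro v hv hv'
    obtain ⟨s, hs, rfl⟩ := mem_image.1 hv'
    exact hmT s hs hv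
  have hUc : U.card ≤ 4 := by
    have h1 := card_sdiff_add_card_eq_card (subset_univ (S ∪ S.image m))
    rw [card_union_of_disjoint hdisj, card_image_of_injOn hmi, card_univ, ← hUdef] at h1
    omega
  have hUS : ∀ u ∈ U, u ∉ S := by
    intro u hu h
    rw [hUdef, mem_sdiff] at hu
    exact hu.2 (mem_union_left _ h)
  have hU : ∀ v, v ∉ S → v ∉ U → ∃ s ∈ S, m s = v := by
    intro v hv hvU
    rw [hUdef, mem_sdiff, not_and_not_right] at hvU
    rcases mem_union.1 (hvU (mem_univ v)) with h | h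
    · exact absurd h hv
    · exact mem_image.1 h
  obtain ⟨Z, hZc, hZ⟩ := cover_exists hR hα hS hSc hcrit hma hUc hU
  obtain ⟨W, hWdef⟩ : ∃ W : Finset V, W = U ∪ (Z \ S) := ⟨_, rfl⟩
  have hWc : W.card ≤ 4 + 2 * R := by
    rw [hWdef]
    have h1 := card_union_le U (Z \ S)
    have h2 : (Z \ S).card ≤ Z.card := card_le_card sdiff_subset
    omega
  have hWS : ∀ w ∈ W, w ∉ S := by
    intro w hw
    rw [hWdef, mem_union] at hw
    rcases hw with hw | hw
    · exact hUS w hw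
    · exact (mem_sdiff.1 hw).2
  have hUW : ∀ v, v ∉ S → v ∉ W → ∃ s ∈ S, m s = v := by
    intro v hv hvW
    refine hU v hv fun h => hvW ?_
    rw [hWdef]
    exact mem_union_left _ h
  have hZW : ∀ u v, u ∉ S → v ∉ S → u ∉ W → v ∉ W → ¬ H.Adj u v := by
    intro u v hu hv huW hvW hadj
    rw [hWdef] at huW hvW
    rcases hZ u v hadj hu hv with h | h
    · exact huW (mem_union_right _ (mem_sdiff.2 ⟨h, hu⟩))
    · exact hvW (mem_union_right _ (mem_sdiff.2 ⟨h, hv⟩))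
  have hlab : ∀ T : Finset V, ∃ l : V → Option V, ∃ C : Finset V, C.card ≤ 4 ∧
      (∀ s c, l s = some c → c ∈ C) ∧
      ∀ I : Finset V, H.IsIndepSet (I : Set V) → I.card = α → I ∩ W = T →
        ∀ s₁ ∈ Cm S m I, ∀ s₂ ∈ Cm S m I, l s₁ = l s₂ → s₁ = s₂ := by
    intro T
    by_cases h : ∃ I0 : Finset V, H.IsIndepSet (I0 : Set V) ∧ I0.card = α ∧ I0 ∩ W = T
    · obtain ⟨I0, hI0, hc, hT⟩ := h
      obtain ⟨l, h1, h2⟩ := lab hα hS hmT hmi hma hWS hUW hZW hI0 hc
      exact ⟨l, Cm S m I0, (card_Cm_le hSc hma hU I0 hI0 hc).trans hUc, h1,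
        fun I hI hIc hIT => h2 I hI hIc (hIT.trans hT.symm)⟩
    · exact ⟨fun _ => none, ∅, by simp, by simp,
        fun I hI hIc hIT => absurd ⟨I, hI, hIc, hIT⟩ h⟩
  choose l C hC hlC hl using hlab
  by_contra hcon
  rw [not_le] at hcon
  have hP : (W.powerset.pi (fun T => insert none ((C T).image some)) :
      Finset (∀ T ∈ W.powerset, Option V)).card ≤ 5 ^ (2 ^ (4 + 2 * R)) := by
    rw [card_pi]
    refine (prod_le_pow_card W.powerset _ 5 ?_).trans ?_
    · intro T _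
      refine (card_insert_le _ _).trans ?_
      have h1 : ((C T).image some).card ≤ (C T).card := card_image_le
      have h2 := hC T
      omega
    · rw [card_powerset]
      exact Nat.pow_le_pow_right (by norm_num) (Nat.pow_le_pow_right (by norm_num) hWc)
  obtain ⟨s₁, hs₁, s₂, hs₂, hne, heq⟩ := exists_ne_map_eq_of_card_lt_of_maps_to
    (s := S) (t := (W.powerset.pi (fun T => insert none ((C T).image some)) :
      Finset (∀ T ∈ W.powerset, Option V))) (by omega)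
    (f := fun s => fun T _ => l T s) (by
      intro s _
      rw [mem_coe, mem_pi]
      intro T _
      change l T s ∈ insert none ((C T).image some)
      rcases h : l T s with _ | c
      · exact mem_insert_self _ _
      · exact mem_insert_of_mem (mem_image_of_mem _ (hlC T s c h)))
  obtain ⟨I, hI, hIX, hIc⟩ := havoid {s₁, m s₁, s₂, m s₂} card_le_four
  have hT : I ∩ W ∈ W.powerset := mem_powerset.2 inter_subset_right
  have heq' : l (I ∩ W) s₁ = l (I ∩ W) s₂ := congrFun (congrFun heq (I ∩ W)) hT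
  refine hne (hl (I ∩ W) I hI hIc rfl s₁ ?_ s₂ ?_ heq')
  · refine mem_filter.2 ⟨hs₁, fun h => hIX _ h ?_, fun h => hIX _ h ?_⟩ <;> simp
  · refine mem_filter.2 ⟨hs₂, fun h => hIX _ h ?_, fun h => hIX _ h ?_⟩ <;> simp

/-- tight `(4, 0)`-stable graphs have bounded order -/
theorem bounded4 : ∃ N : ℕ, ∀ (V : Type) [Fintype V] [Nonempty V] (G : SimpleGraph V),
    TightStable 4 G → Fintype.card V ≤ N := by
  classical
  obtain ⟨R, hR⟩ := ramsey 5 5
  refine ⟨2 * 5 ^ (2 ^ (4 + 2 * R)) + 4, fun V _ _ G hG => ?_⟩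
  obtain ⟨H, hHG, hα, hcrit⟩ := exists_crit G
  have hn := tight_card hG
  have hb := main_bound hR hα (fun X hX => by
    obtain ⟨I, hI, hIX, hIc⟩ := (stable_iff G 4).1 hG.1 X hX
    exact ⟨I, fun x hx y hy hxy h => hI hx hy hxy (hHG h), hIX, hIc⟩) hcrit (by omega)
  omega

end Pool.Agent.X212.Stab
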