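import Pool.Agent.X212.Stab.Gen

set_option autoImplicit false
set_option linter.unusedSectionVars false

/-!
`(3, 0)`-stable graphs with independence number at least `n / 2 - c` have bounded order.
-/

namespace Pool.Agent.X212.Three

open Finset Pool.Agent.X212.Stab

/-- Ramsey's theorem for pairs with several colours -/
lemma mramsey (k n : ℕ) : ∃ R : ℕ, ∀ (κ : Type) (D : Finset κ), D.card ≤ k → ∀ c : ℕ → ℕ → κ,
    ∀ U : Finset ℕ, R ≤ U.card → (∀ i ∈ U, ∀ j ∈ U, i < j → c i j ∈ D) →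
    ∃ M ⊆ U, M.card = n ∧ ∃ a, ∀ i ∈ M, ∀ j ∈ M, i < j → c i j = a := by
  classical
  induction k with
  | zero =>
    refine ⟨2, fun κ D hD c U hU hc => ?_⟩
    exfalso
    obtain ⟨i, hi, j, hj, hij⟩ := one_lt_card.1 (show 1 < U.card by omega)
    have hD0 : D = ∅ := card_eq_zero.1 (by omega)
    subst hD0
    rcases lt_or_gt_of_ne hij with h | h
    · exact notMem_empty _ (hc i hi j hj h)
    · exact notMem_empty _ (hc j hj i hi h)
  | succ k ih =>
    obtain ⟨R, hR⟩ := ih
    obtain ⟨Q, hQ⟩ := ramsey n R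
    refine ⟨max Q 2, fun κ D hD c U hU hc => ?_⟩
    obtain ⟨i₀, hi₀, j₀, hj₀, hij₀⟩ := one_lt_card.1 (show 1 < U.card by omega)
    obtain ⟨a, ha⟩ : ∃ a, a ∈ D := by
      rcases lt_or_gt_of_ne hij₀ with h | h
      · exact ⟨_, hc i₀ hi₀ j₀ hj₀ h⟩
      · exact ⟨_, hc j₀ hj₀ i₀ hi₀ h⟩
    rcases hQ ℕ (SimpleGraph.fromRel (fun i j => i < j ∧ c i j = a)) U (by omega) with
      ⟨A, hA, hAc, hcl⟩ | ⟨B, hB, hBc, hi⟩
    · refine ⟨A, hA, hAc, a, fun i hi j hj hij => ?_⟩
      have h1 := hcl (mem_coe.2 hi) (mem_coe.2 hj) hij.ne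
      rw [SimpleGraph.fromRel_adj] at h1
      rcases h1.2 with h | h
      · exact h.2
      · exact absurd h.1 (by omega)
    · obtain ⟨M, hM, hMc, b, hb⟩ := hR κ (D.erase a) (by rw [card_erase_of_mem ha]; omega) c B
        (by omega) (fun i hi' j hj hij => mem_erase.2 ⟨fun h => hi (mem_coe.2 hi') (mem_coe.2 hj) hij.ne
          ((SimpleGraph.fromRel_adj _ _ _).2 ⟨hij.ne, Or.inl ⟨hij, h⟩⟩), hc i (hB hi') j (hB hj) hij⟩)
      exact ⟨M, hM.trans hB, hMc, b, hb⟩

variable {V : Type} [Fintype V] [DecidableEq V]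

/-- trace of a maximum independent set outside `S` -/
def Good (H : SimpleGraph V) (S A : Finset V) : Prop :=
  H.IsIndepSet (A : Set V) ∧ (∀ v ∈ A, v ∉ S) ∧ (NS H S A).card ≤ A.card

lemma NS_mono {H : SimpleGraph V} {S A B : Finset V} (h : A ⊆ B) : NS H S A ⊆ NS H S B := by
  intro x hx
  obtain ⟨hxS, y, hy, hadj⟩ := mem_NS.1 hx
  exact mem_NS.2 ⟨hxS, y, h hy, hadj⟩

lemma NS_union {H : SimpleGraph V} {S A B : Finset V} : NS H S (A ∪ B) = NS H S A ∪ NS H S B := by
  ext x
  simp only [mem_NS, mem_union]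
  constructor
  · rintro ⟨hx, y, hy | hy, hadj⟩
    · exact Or.inl ⟨hx, y, hy, hadj⟩
    · exact Or.inr ⟨hx, y, hy, hadj⟩
  · rintro (⟨hx, y, hy, hadj⟩ | ⟨hx, y, hy, hadj⟩)
    · exact ⟨hx, y, Or.inl hy, hadj⟩
    · exact ⟨hx, y, Or.inr hy, hadj⟩

/-- adding a good set -/
lemma step {H : SimpleGraph V} {α : ℕ}
    (hα : ∀ I : Finset V, H.IsIndepSet (I : Set V) → I.card ≤ α)
    {S : Finset V} (hS : H.IsIndepSet (S : Set V)) (hSc : S.card = α) {X Y : Finset V}
    (hX : Good H S X) {k : ℕ} (hY : (NS H S Y).card + k ≤ Y.card) :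
    (NS H S (X ∪ Y)).card + k ≤ (X ∪ Y).card ∧
      ∀ s, s ∈ NS H S X → s ∈ NS H S Y → s ∉ NS H S (X ∩ Y) →
        (NS H S (X ∪ Y)).card + (k + 1) ≤ (X ∪ Y).card := by
  have h1 : (X ∩ Y).card ≤ (NS H S (X ∩ Y)).card := by
    apply indep_le hα hS hSc
    · intro x hx y hy hxy
      exact hX.1 (mem_inter.1 hx).1 (mem_inter.1 hy).1 hxy
    · intro x hx
      exact hX.2.1 x (mem_inter.1 hx).1
  have h2 : NS H S (X ∩ Y) ⊆ NS H S X ∩ NS H S Y :=
    subset_inter (NS_mono inter_subset_left) (NS_mono inter_subset_right)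
  have h3 := card_union_add_card_inter (NS H S X) (NS H S Y)
  have h4 := card_union_add_card_inter X Y
  have h5 := hX.2.2
  rw [NS_union]
  constructor
  · have h6 := card_le_card h2
    omega
  · intro s hs1 hs2 hs3
    have h6 : NS H S (X ∩ Y) ⊂ NS H S X ∩ NS H S Y := by
      rw [ssubset_iff_subset_ne]
      refine ⟨h2, fun h => hs3 ?_⟩
      rw [h]
      exact mem_inter.2 ⟨hs1, hs2⟩
    have h7 := card_lt_card h6
    omega

/-- intersection of two good sets with independent union -/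
lemma good_inter {H : SimpleGraph V} {α : ℕ}
    (hα : ∀ I : Finset V, H.IsIndepSet (I : Set V) → I.card ≤ α)
    {S : Finset V} (hS : H.IsIndepSet (S : Set V)) (hSc : S.card = α) {X Y : Finset V}
    (hX : Good H S X) (hY : Good H S Y) (hXY : H.IsIndepSet ((X ∪ Y : Finset V) : Set V)) :
    Good H S (X ∩ Y) ∧ ∀ s, s ∈ NS H S X → s ∈ NS H S Y → s ∈ NS H S (X ∩ Y) := by
  have h1 : (X ∪ Y).card ≤ (NS H S (X ∪ Y)).card := by
    apply indep_le hα hS hSc hXY
    intro x hx
    rcases mem_union.1 hx with hx | hx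
    · exact hX.2.1 x hx
    · exact hY.2.1 x hx
  have h8 : (X ∩ Y).card ≤ (NS H S (X ∩ Y)).card := by
    apply indep_le hα hS hSc
    · intro x hx y hy hxy
      exact hX.1 (mem_inter.1 hx).1 (mem_inter.1 hy).1 hxy
    · intro x hx
      exact hX.2.1 x (mem_inter.1 hx).1
  have h2 : NS H S (X ∩ Y) ⊆ NS H S X ∩ NS H S Y :=
    subset_inter (NS_mono inter_subset_left) (NS_mono inter_subset_right)
  have h3 := card_union_add_card_inter (NS H S X) (NS H S Y)
  have h4 := card_union_add_card_inter X Y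
  have h5 := hX.2.2
  have h6 := hY.2.2
  have h7 := card_le_card h2
  rw [NS_union] at h1
  have h9 : NS H S (X ∩ Y) = NS H S X ∩ NS H S Y := eq_of_subset_of_card_le h2 (by omega)
  refine ⟨⟨?_, fun v hv => hX.2.1 v (mem_inter.1 hv).1, by omega⟩, fun s h1 h2 => ?_⟩
  · intro x hx y hy hxy
    exact hX.1 (mem_inter.1 hx).1 (mem_inter.1 hy).1 hxy
  · rw [h9]
    exact mem_inter.2 ⟨h1, h2⟩

/-- intersection of a family of good sets with the same trace on `W` -/
lemma good_inf {H : SimpleGraph V} {α : ℕ}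
    (hα : ∀ I : Finset V, H.IsIndepSet (I : Set V) → I.card ≤ α)
    {S : Finset V} (hS : H.IsIndepSet (S : Set V)) (hSc : S.card = α) {W : Finset V}
    (hZ : ∀ u v, u ∉ S → v ∉ S → u ∉ W → v ∉ W → ¬ H.Adj u v) (X : ℕ → Finset V) (T : Finset V)
    (F : Finset ℕ) (hF : F.Nonempty) (hX : ∀ i ∈ F, Good H S (X i) ∧ X i ∩ W = T) :
    ∃ Y : Finset V, Good H S Y ∧ Y ∩ W = T ∧ (∀ i ∈ F, Y ⊆ X i) ∧
      ∀ s, (∀ i ∈ F, s ∈ NS H S (X i)) → s ∈ NS H S Y := by
  induction F using Finset.induction_on with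
  | empty => exact absurd hF (by simp)
  | insert j F hj ih =>
    rcases F.eq_empty_or_nonempty with rfl | hne
    · obtain ⟨h1, h2⟩ := hX j (mem_insert_self _ _)
      exact ⟨X j, h1, h2, fun i hi => by simp at hi; subst hi; rfl,
        fun s hs => hs j (mem_insert_self _ _)⟩
    · obtain ⟨Y, hY, hYT, hYs, hYn⟩ := ih hne (fun i hi => hX i (mem_insert_of_mem hi))
      obtain ⟨h1, h2⟩ := hX j (mem_insert_self _ _)
      have hun : H.IsIndepSet ((X j ∪ Y : Finset V) : Set V) := by
        have both : ∀ x ∈ X j ∪ Y, x ∈ W → x ∈ X j ∧ x ∈ Y := by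
          intro x hx hxW
          rcases mem_union.1 hx with hx | hx
          · have := mem_inter.2 ⟨hx, hxW⟩
            rw [h2, ← hYT] at this
            exact ⟨hx, (mem_inter.1 this).1⟩
          · have := mem_inter.2 ⟨hx, hxW⟩
            rw [hYT, ← h2] at this
            exact ⟨(mem_inter.1 this).1, hx⟩
        have notS : ∀ x ∈ X j ∪ Y, x ∉ S := by
          intro x hx
          rcases mem_union.1 hx with hx | hx
          · exact h1.2.1 x hx
          · exact hY.2.1 x hx
        intro x hx y hy hxy hadj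
        have hx' := mem_coe.1 hx
        have hy' := mem_coe.1 hy
        by_cases hxW : x ∈ W
        · obtain ⟨e1, e2⟩ := both x hx' hxW
          rcases mem_union.1 hy' with h | h
          · exact h1.1 e1 h hxy hadj
          · exact hY.1 e2 h hxy hadj
        · by_cases hyW : y ∈ W
          · obtain ⟨e1, e2⟩ := both y hy' hyW
            rcases mem_union.1 hx' with h | h
            · exact h1.1 h e1 hxy hadj
            · exact hY.1 h e2 hxy hadj
          · exact hZ x y (notS x hx') (notS y hy') hxW hyW hadj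
      obtain ⟨g1, g2⟩ := good_inter hα hS hSc h1 hY hun
      refine ⟨X j ∩ Y, g1, ?_, ?_, ?_⟩
      · ext v
        have e1 : v ∈ X j ∩ W ↔ v ∈ T := by rw [h2]
        have e2 : v ∈ Y ∩ W ↔ v ∈ T := by rw [hYT]
        simp only [mem_inter] at e1 e2 ⊢
        tauto
      · intro i hi
        rcases mem_insert.1 hi with rfl | hi
        · exact inter_subset_left
        · exact inter_subset_right.trans (hYs i hi)
      · intro s hs
        exact g2 s (hs j (mem_insert_self _ _)) (hYn s fun i hi => hs i (mem_insert_of_mem hi))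

/-- two increasing families -/
lemma final1 {H : SimpleGraph V} {α C : ℕ}
    (hα : ∀ I : Finset V, H.IsIndepSet (I : Set V) → I.card ≤ α)
    {S : Finset V} (hS : H.IsIndepSet (S : Set V)) (hSc : S.card = α)
    (hC : ∀ J : Finset V, (∀ j ∈ J, j ∉ S) → J.card ≤ (NS H S J).card + C)
    (n : ℕ) (s t : ℕ → V) (A P : ℕ → Finset V) (hst : ∀ j < n, s j ∈ S ∧ H.Adj (s j) (t j))
    (hA : ∀ j < n, Good H S (A j)) (hP : ∀ j < n, Good H S (P j))
    (h1 : ∀ j < n, s j ∈ NS H S (A j) ∧ t j ∉ A j)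
    (h2 : ∀ j < n, ∀ i < j, s j ∉ NS H S (A i))
    (h3 : ∀ j < n, t j ∈ P j ∧ ∀ v ∈ P j, H.Adj (s j) v → v = t j)
    (h4 : ∀ j < n, ∀ i < j, s j ∉ NS H S (P i)) : n ≤ C := by
  have key : ∀ k ≤ n, (NS H S ((range k).biUnion A ∪ (range k).biUnion P)).card + k ≤
      ((range k).biUnion A ∪ (range k).biUnion P).card := by
    intro k
    induction k with
    | zero => simp [NS]
    | succ k ih =>
      intro hk
      have hk' : k < n := by omega
      have e1 := (step hα hS hSc (hA k hk') (ih (by omega))).1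
      have e2 := (step hα hS hSc (hP k hk') e1).2 (s k)
        (mem_NS.2 ⟨(hst k hk').1, t k, (h3 k hk').1, (hst k hk').2⟩)
        (NS_mono subset_union_left (h1 k hk').1) (by
          intro h
          obtain ⟨_, v, hv, hadj⟩ := mem_NS.1 h
          obtain ⟨hvP, hv⟩ := mem_inter.1 hv
          have hvt := (h3 k hk').2 v hvP hadj
          rw [hvt] at hv
          rcases mem_union.1 hv with hv | hv
          · exact (h1 k hk').2 hv
          · rcases mem_union.1 hv with hv | hv
            · obtain ⟨i, hi, hv⟩ := mem_biUnion.1 hv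
              exact h2 k hk' i (mem_range.1 hi) (mem_NS.2 ⟨(hst k hk').1, t k, hv, (hst k hk').2⟩)
            · obtain ⟨i, hi, hv⟩ := mem_biUnion.1 hv
              exact h4 k hk' i (mem_range.1 hi) (mem_NS.2 ⟨(hst k hk').1, t k, hv, (hst k hk').2⟩))
      have e3 : (range (k + 1)).biUnion A ∪ (range (k + 1)).biUnion P =
          P k ∪ (A k ∪ ((range k).biUnion A ∪ (range k).biUnion P)) := by
        rw [range_add_one, biUnion_insert, biUnion_insert]
        ext v
        simp only [mem_union]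
        tauto
      rw [e3]
      exact e2
  have h5 := key n le_rfl
  have h6 := hC ((range n).biUnion A ∪ (range n).biUnion P) (by
    intro j hj
    rcases mem_union.1 hj with hj | hj
    · obtain ⟨i, hi, hj⟩ := mem_biUnion.1 hj
      exact (hA i (mem_range.1 hi)).2.1 j hj
    · obtain ⟨i, hi, hj⟩ := mem_biUnion.1 hj
      exact (hP i (mem_range.1 hi)).2.1 j hj)
  omega

/-- an increasing family and a constant one -/
lemma final2 {H : SimpleGraph V} {α C : ℕ}
    (hα : ∀ I : Finset V, H.IsIndepSet (I : Set V) → I.card ≤ α)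
    {S : Finset V} (hS : H.IsIndepSet (S : Set V)) (hSc : S.card = α)
    (hC : ∀ J : Finset V, (∀ j ∈ J, j ∉ S) → J.card ≤ (NS H S J).card + C)
    (n : ℕ) (s t : ℕ → V) (A : ℕ → Finset V) (P : Finset V)
    (hst : ∀ j < n, s j ∈ S ∧ H.Adj (s j) (t j))
    (hA : ∀ j < n, Good H S (A j)) (hP : Good H S P)
    (h1 : ∀ j < n, s j ∈ NS H S (A j) ∧ t j ∉ A j)
    (h2 : ∀ j < n, ∀ i < j, s j ∉ NS H S (A i))
    (h3 : ∀ j < n, s j ∈ NS H S P ∧ ∀ v ∈ P, H.Adj (s j) v → v = t j) : n ≤ C := by
  have key : ∀ k ≤ n, (NS H S ((range k).biUnion A ∪ P)).card + k ≤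
      ((range k).biUnion A ∪ P).card := by
    intro k
    induction k with
    | zero =>
      intro _
      have := hP.2.2
      simpa using this
    | succ k ih =>
      intro hk
      have hk' : k < n := by omega
      have e2 := (step hα hS hSc (hA k hk') (ih (by omega))).2 (s k)
        (h1 k hk').1
        (NS_mono subset_union_right (h3 k hk').1) (by
          intro h
          obtain ⟨_, v, hv, hadj⟩ := mem_NS.1 h
          obtain ⟨hvA, hv⟩ := mem_inter.1 hv
          rcases mem_union.1 hv with hv | hv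
          · obtain ⟨i, hi, hv⟩ := mem_biUnion.1 hv
            exact h2 k hk' i (mem_range.1 hi) (mem_NS.2 ⟨(hst k hk').1, v, hv, hadj⟩)
          · rw [(h3 k hk').2 v hv hadj] at hvA
            exact (h1 k hk').2 hvA)
      have e3 : (range (k + 1)).biUnion A ∪ P = A k ∪ ((range k).biUnion A ∪ P) := by
        rw [range_add_one, biUnion_insert]
        ext v
        simp only [mem_union]
        tauto
      rw [e3]
      exact e2
  have h5 := key n le_rfl
  have h6 := hC ((range n).biUnion A ∪ P) (by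
    intro j hj
    rcases mem_union.1 hj with hj | hj
    · obtain ⟨i, hi, hj⟩ := mem_biUnion.1 hj
      exact (hA i (mem_range.1 hi)).2.1 j hj
    · exact hP.2.1 j hj)
  omega

end Pool.Agent.X212.Three
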